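import Pool.Agent.H54.TSG.Level

/-!
The core of the lower bound for `T` adaptive probes
(3SUM-Indexing cell probe lower bound for T probes, MP_e016b3_lc).
-/

namespace Pool.H54.TSG

open Finset Function Classical Pool.H54.TSUM

variable {n U S W : ℕ}

/-- the memory `M` answers all queries correctly for the arrays `A` with `T` probes -/
def CorrectT (P : Scheme S W) (T : ℕ) (A : Arr n U) (M : Fin S → Fin W) : Prop :=
  ∀ z, P.run T M z = true ↔ ∃ g : Label n, zv A g = z

/-- queries answered positively by a hub and the contents of two further cells -/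
noncomputable def Zh (P : Scheme S W) (U e : ℕ) (N : Fin S → Fin W) (Q : Finset (Fin S))
    (s t : Fin S × Fin W) : Finset ℕ :=
  (range (2 * U)).filter (fun z => Res P N Q e z ∧ cl P N e z = s.1 ∧
    P.addr z (s.2 :: P.reads N z e) = t.1 ∧ P.ans z (t.2 :: s.2 :: P.reads N z e) = true)

/-- virtual blocks at level `t` -/
noncomputable def vblk (P : Scheme S W) (U rv t : ℕ) (N : Fin S → Fin W) : ℕ → Fin S × ℕ :=
  ck (range (2 * U)) (cl P N t) rv

/-- members of a virtual block -/
noncomputable def blkset (P : Scheme S W) (U rv t : ℕ) (N : Fin S → Fin W) (v : Fin S × ℕ) :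
    Finset ℕ := (range (2 * U)).filter (fun z => vblk P U rv t N z = v)

/-- good event (b) -/
def Gb (P : Scheme S W) (e L K q B : ℕ) (N : Fin S → Fin W) (Q : Finset (Fin S))
    (A : Arr n U) : Prop :=
  GoodFor (seqI (univ : Finset (Fin S × Fin W)) (fun _ => (univ : Finset (Label n))) q) seqSupp
    (seqEv (heavyL U L (Zh P U e N Q) K)) B A

/-- good event (c) -/
def Gc (P : Scheme S W) (e L K q B : ℕ) (N : Fin S → Fin W) (Q : Finset (Fin S))
    (A : Arr n U) : Prop :=
  GoodFor (seqI (univ : Finset (Fin S × Fin W)) (fun _ => (univ : Finset (Label n))) q) seqSupp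
    (seqEv (heavyL U L (fun a b => Zh P U e N Q b a) K)) B A

/-- good event (F) -/
def GF (P : Scheme S W) (e L K p B : ℕ) (N : Fin S → Fin W) (Q : Finset (Fin S))
    (A : Arr n U) : Prop :=
  GoodFor (confI n (4 * p)) confSupp (confEv (RelL L (Zh P U e N Q) K)) B A

/-- good event (d) at level `t` -/
def Gd (P : Scheme S W) (rv m₀ t B : ℕ) (N : Fin S → Fin W) (A : Arr n U) : Prop :=
  GoodFor (seqI ((univ : Finset (Vtx n)) ×ˢ (range (2 * U)).image (vblk P U rv t N))
    (fun j => (univ : Finset (Label n)).filter (fun g => Touches j.1 g)) m₀) seqSupp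
    (seqEv (fun j => blkset P U rv t N j.2)) B A

/-- all good events for one hub -/
def GoodHub (P : Scheme S W) (e L K q p rv m₀ B : ℕ) (N : Fin S → Fin W) (Q : Finset (Fin S))
    (A : Arr n U) : Prop :=
  Gb P e L K q B N Q A ∧ Gc P e L K q B N Q A ∧ GF P e L K p B N Q A ∧
    ∀ t < e + 1, Gd P rv m₀ t B N A

theorem gd_use (P : Scheme S W) (rv m₀ t B : ℕ) (N : Fin S → Fin W) (A : Arr n U)
    (h : Gd P rv m₀ t B N A) : ∃ D : Finset (Vtx n), D.card ≤ B ∧ ∀ (α : Vtx n) (v : Fin S × ℕ),
      ((univ : Finset (Label n)).filter (fun g => Avoids D g ∧ Touches α g ∧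
        zv A g ∈ blkset P U rv t N v)).card ≤ m₀ := by
  obtain ⟨D, hD, h2⟩ := good_touch _ _ m₀ B A h
  refine ⟨D, hD, fun α v => ?_⟩
  by_cases hv : v ∈ (range (2 * U)).image (vblk P U rv t N)
  · exact h2 (α, v) (mem_product.2 ⟨mem_univ _, hv⟩)
  · have : (univ : Finset (Label n)).filter (fun g => Avoids D g ∧ Touches α g ∧
        zv A g ∈ blkset P U rv t N v) = ∅ := by
      rw [filter_eq_empty_iff]
      intro g _ hc
      have h3 := mem_filter.1 hc.2.2
      exact hv (mem_image.2 ⟨zv A g, h3.1, h3.2⟩)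
    rw [this]
    exact Nat.zero_le _

/-- The union bound over the good events for one hub. -/
theorem hub_bound (P : Scheme S W) (e L K q p rv m₀ k v N' : ℕ) (N : Fin S → Fin W)
    (Q : Finset (Fin S)) (hU : 0 < U) (hK : 0 < K) (hrv : 0 < rv)
    (hvq : 2 * q ≤ v) (hvm : 2 * m₀ ≤ v) (hvp : 24 * p ≤ v)
    (hblocks : 2 * U ≤ rv * (4 * S))
    (hNb : N' * ((S * W) * ((n ^ 2) ^ q * (L * (S * W)) ^ q)) ≤ U ^ q * (K + 1) ^ q)
    (hNF : N' * ((((n ^ 2) ^ (4 * p)) ^ 3 * (9 * (2 * n) ^ 2)) *
      ((S * W) * (K ^ (4 * p) * (K ^ (4 * p) * (K ^ (4 * p) * (K ^ (4 * p) * (K ^ (4 * p) *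
        (L * L)))))))) ≤ U ^ 2)
    (hNd : N' * ((2 * n * (5 * S)) * (n ^ m₀ * rv ^ m₀)) ≤ U ^ m₀) :
    N' ^ k * ((univ : Finset (Arr n U)).filter
      (fun A => ¬ GoodHub P e L K q p rv m₀ (k * v) N Q A)).card ≤ (e + 4) * U ^ (2 * n) := by
  have hcardσ : Fintype.card (Fin S × Fin W) = S * W := by
    rw [Fintype.card_prod, Fintype.card_fin, Fintype.card_fin]
  have hcardL : (univ : Finset (Label n)).card = n ^ 2 := by
    rw [card_univ, Fintype.card_prod, Fintype.card_fin, pow_two]
  -- event (b)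
  have hb : N' ^ k * ((univ : Finset (Arr n U)).filter
      (fun A => ¬ Gb P e L K q (k * v) N Q A)).card ≤ U ^ (2 * n) := by
    refine pack _ _ _ N' v hU (fun i hi => (seqSupp_card _ _ _ i hi).trans hvq)
      (fun i A B h => seqEv_dep _ i A B h) ?_ k
    refine seq_sum _ _ _ q (n ^ 2) (L * (S * W)) (K + 1) N' (by omega) hU
      (fun j _ => hcardL.le) (fun j _ => ?_) ?_
    · have := heavyL_card U L (Zh P U e N Q) K j
      rw [hcardσ] at this
      exact this
    · rw [card_univ, hcardσ]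
      exact hNb
  -- event (c)
  have hc : N' ^ k * ((univ : Finset (Arr n U)).filter
      (fun A => ¬ Gc P e L K q (k * v) N Q A)).card ≤ U ^ (2 * n) := by
    refine pack _ _ _ N' v hU (fun i hi => (seqSupp_card _ _ _ i hi).trans hvq)
      (fun i A B h => seqEv_dep _ i A B h) ?_ k
    refine seq_sum _ _ _ q (n ^ 2) (L * (S * W)) (K + 1) N' (by omega) hU
      (fun j _ => hcardL.le) (fun j _ => ?_) ?_
    · have := heavyL_card U L (fun a b => Zh P U e N Q b a) K j
      rw [hcardσ] at this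
      exact this
    · rw [card_univ, hcardσ]
      exact hNb
  -- event (F)
  have hF : N' ^ k * ((univ : Finset (Arr n U)).filter
      (fun A => ¬ GF P e L K p (k * v) N Q A)).card ≤ U ^ (2 * n) := by
    refine pack _ _ _ N' v hU
      (fun i hi => (confSupp_card (4 * p) i hi).trans (by omega))
      (fun i A B h => confEv_dep _ i A B h) ?_ k
    refine conf_sum _ K L (4 * p) N' hK hU (fun z s => relL_right _ _ _ _ _)
      (fun z t => relL_left _ _ _ _ _) (fun s t => relL_z _ _ _ _ _ _) ?_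
    rw [hcardσ]
    exact hNF
  -- event (d)
  have hd : ∀ t, N' ^ k * ((univ : Finset (Arr n U)).filter
      (fun A => ¬ Gd P rv m₀ t (k * v) N A)).card ≤ U ^ (2 * n) := by
    intro t
    refine pack _ _ _ N' v hU (fun i hi => (seqSupp_card _ _ _ i hi).trans hvm)
      (fun i A B h => seqEv_dep _ i A B h) ?_ k
    refine seq_sum _ _ _ m₀ n rv 1 N' Nat.one_pos hU
      (fun j _ => (card_touches j.1).le) (fun j _ => ?_) ?_
    · rw [mul_one]
      exact ck_fibre _ _ rv hrv j.2
    · rw [one_pow, mul_one]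
      refine le_trans (Nat.mul_le_mul_left _ (Nat.mul_le_mul_right _ ?_)) hNd
      rw [card_product, card_univ, Fintype.card_sum, Fintype.card_fin, ← two_mul]
      refine Nat.mul_le_mul_left _ ?_
      have h1 := ck_image (range (2 * U)) (cl P N t) rv
      rw [card_range] at h1
      have h2 : ((range (2 * U)).image (cl P N t)).card ≤ S := by
        refine (card_le_univ _).trans ?_
        rw [Fintype.card_fin]
      have h3 : rv * ((range (2 * U)).image (vblk P U rv t N)).card ≤ rv * (5 * S) := by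
        calc _ ≤ 2 * U + rv * ((range (2 * U)).image (cl P N t)).card := h1
          _ ≤ rv * (4 * S) + rv * S := Nat.add_le_add hblocks (Nat.mul_le_mul_left _ h2)
          _ = rv * (5 * S) := by ring
      exact Nat.le_of_mul_le_mul_left h3 hrv
  -- union
  have hsub : (univ : Finset (Arr n U)).filter
      (fun A => ¬ GoodHub P e L K q p rv m₀ (k * v) N Q A) ⊆
      ((univ : Finset (Arr n U)).filter (fun A => ¬ Gb P e L K q (k * v) N Q A)) ∪
      (((univ : Finset (Arr n U)).filter (fun A => ¬ Gc P e L K q (k * v) N Q A)) ∪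
      (((univ : Finset (Arr n U)).filter (fun A => ¬ GF P e L K p (k * v) N Q A)) ∪
      ((range (e + 1)).biUnion (fun t => (univ : Finset (Arr n U)).filter
        (fun A => ¬ Gd P rv m₀ t (k * v) N A))))) := by
    intro A hA
    have hA' := (mem_filter.1 hA).2
    rw [mem_union, mem_union, mem_union, mem_biUnion]
    by_cases h1 : Gb P e L K q (k * v) N Q A
    · by_cases h2 : Gc P e L K q (k * v) N Q A
      · by_cases h3 : GF P e L K p (k * v) N Q A
        · right; right; right
          by_contra hcon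
          push Not at hcon
          refine hA' ⟨h1, h2, h3, fun t ht => ?_⟩
          by_contra h4
          exact hcon t (mem_range.2 ht) (mem_filter.2 ⟨mem_univ _, h4⟩)
        · exact Or.inr (Or.inr (Or.inl (mem_filter.2 ⟨mem_univ _, h3⟩)))
      · exact Or.inr (Or.inl (mem_filter.2 ⟨mem_univ _, h2⟩))
    · exact Or.inl (mem_filter.2 ⟨mem_univ _, h1⟩)
  have hcard := card_le_card hsub
  have hu4 : ((range (e + 1)).biUnion (fun t => (univ : Finset (Arr n U)).filter
        (fun A => ¬ Gd P rv m₀ t (k * v) N A))).card ≤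
      ∑ t ∈ range (e + 1), ((univ : Finset (Arr n U)).filter
        (fun A => ¬ Gd P rv m₀ t (k * v) N A)).card := card_biUnion_le
  have h4 : N' ^ k * ∑ t ∈ range (e + 1), ((univ : Finset (Arr n U)).filter
        (fun A => ¬ Gd P rv m₀ t (k * v) N A)).card ≤ (e + 1) * U ^ (2 * n) := by
    rw [mul_sum]
    calc _ ≤ ∑ t ∈ range (e + 1), U ^ (2 * n) := sum_le_sum (fun t _ => hd t)
      _ = (e + 1) * U ^ (2 * n) := by rw [sum_const, smul_eq_mul, card_range]
  have hcard2 := hcard.trans ((card_union_le _ _).trans (Nat.add_le_add_left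
    ((card_union_le _ _).trans (Nat.add_le_add_left ((card_union_le _ _).trans
      (Nat.add_le_add_left hu4 _)) _)) _))
  calc _ ≤ N' ^ k * _ := Nat.mul_le_mul_left _ hcard2
    _ = N' ^ k * ((univ : Finset (Arr n U)).filter
          (fun A => ¬ Gb P e L K q (k * v) N Q A)).card + (N' ^ k *
          ((univ : Finset (Arr n U)).filter (fun A => ¬ Gc P e L K q (k * v) N Q A)).card +
          (N' ^ k * ((univ : Finset (Arr n U)).filter
          (fun A => ¬ GF P e L K p (k * v) N Q A)).card + N' ^ k * ∑ t ∈ range (e + 1),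
          ((univ : Finset (Arr n U)).filter (fun A => ¬ Gd P rv m₀ t (k * v) N A)).card)) := by
        rw [Nat.mul_add, Nat.mul_add, Nat.mul_add]
    _ ≤ U ^ (2 * n) + (U ^ (2 * n) + (U ^ (2 * n) + (e + 1) * U ^ (2 * n))) :=
        Nat.add_le_add hb (Nat.add_le_add hc (Nat.add_le_add hF h4))
    _ = (e + 4) * U ^ (2 * n) := by ring

/-- existence of arrays that are good for all members of a small family -/
theorem exists_good {X : Type*} [Fintype X] (Good : X → Arr n U → Prop) (Nk c : ℕ) (hU : 0 < U)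
    (h : ∀ x, Nk * ((univ : Finset (Arr n U)).filter (fun A => ¬ Good x A)).card ≤
      c * U ^ (2 * n)) (hlt : Fintype.card X * c < Nk) : ∃ A, ∀ x, Good x A := by
  by_contra hcon
  push Not at hcon
  have hcov : (univ : Finset (Arr n U)) ⊆ (univ : Finset X).biUnion
      (fun x => (univ : Finset (Arr n U)).filter (fun A => ¬ Good x A)) := by
    intro A _
    obtain ⟨x, hx⟩ := hcon A
    rw [mem_biUnion]
    exact ⟨x, mem_univ _, mem_filter.2 ⟨mem_univ _, hx⟩⟩
  have h1 := (card_le_card hcov).trans card_biUnion_le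
  have hu : (univ : Finset (Arr n U)).card = U ^ (2 * n) := by
    rw [card_univ, Fintype.card_fun, Fintype.card_fin, Fintype.card_sum, Fintype.card_fin, two_mul]
  rw [hu] at h1
  have h2 : Nk * U ^ (2 * n) ≤ (Fintype.card X * c) * U ^ (2 * n) := by
    calc Nk * U ^ (2 * n) ≤ Nk * ∑ x : X, ((univ : Finset (Arr n U)).filter
          (fun A => ¬ Good x A)).card := Nat.mul_le_mul_left _ h1
      _ = ∑ x : X, Nk * ((univ : Finset (Arr n U)).filter (fun A => ¬ Good x A)).card := by
          rw [mul_sum]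
      _ ≤ ∑ x : X, c * U ^ (2 * n) := sum_le_sum (fun x _ => h x)
      _ = (Fintype.card X * c) * U ^ (2 * n) := by
          rw [sum_const, smul_eq_mul, card_univ, mul_assoc]
  have h3 := Nat.le_of_mul_le_mul_right h2 (Nat.pow_pos hU)
  omega

/-- The construction of the hub, level by level. -/
theorem levels (P : Scheme S W) (A : Arr n U) (M : Fin S → Fin W) (w₀ : Fin W) (H e : ℕ)
    (m₀ rv κh τ h β Hs B : ℕ) (hS : 0 < S) (hSh : S = h * β) (hβ : 0 < β) (hh : 0 < h)
    (hhHs : h ≤ Hs) (hH : e * Hs ≤ H) (hn : 0 < n) (hτ0 : 0 < τ)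
    (hτ : (κh / rv + 1) * m₀ ≤ τ) (hHs : 2 * U < (Hs + 1) * κh)
    (hB : 2 * (B * 400 ^ e) ≤ n)
    (hτβ : ∀ t < e, (16 + 32 * τ) * β * (22 * β) ^ t ≤ n)
    (hgood : ∀ θ : Fin H → Fin S × Fin W, (∀ i, (θ i).2 = M (θ i).1) → ∀ t < e,
      Gd P rv m₀ t B (hmem θ w₀) A)
    (t : ℕ) (ht : t ≤ e) :
    ∃ Q : Finset (Fin S), Q.card ≤ t * Hs ∧ ∃ (G : Finset (Label n)) (Y : ℕ),
      (∀ g ∈ G, Res P M Q t (zv A g)) ∧ (∀ α, dF G α ≤ Y) ∧
      n ^ 2 ≤ (22 * β) ^ t * G.card ∧ Y * n ≤ 400 ^ t * G.card := by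
  induction t with
  | zero =>
    refine ⟨∅, by simp, univ, n, fun g _ i hi => absurd hi (by omega), fun α => ?_, ?_, ?_⟩
    · unfold dF
      exact (card_touches α).le
    · rw [pow_zero, one_mul, card_univ, Fintype.card_prod, Fintype.card_fin, pow_two]
    · rw [pow_zero, one_mul, card_univ, Fintype.card_prod, Fintype.card_fin]
  | succ t ih =>
    obtain ⟨Q, hQ, G, Y, hG, hY, hGn, hYn⟩ := ih (by omega)
    have hQH : Q.card ≤ H := hQ.trans ((Nat.mul_le_mul_right _ (by omega)).trans hH)
    obtain ⟨θ, hθ, hQθ⟩ := exists_hub Q hQH hS M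
    obtain ⟨D, hD, hDgood⟩ := gd_use P rv m₀ t B (hmem θ w₀) A (hgood θ hθ t (by omega))
    have hMN : ∀ c ∈ Q, hmem θ w₀ c = M c := fun c hc => hmem_eq θ w₀ M hθ c (hQθ hc)
    have h400 : 400 ^ t ≤ 400 ^ e := Nat.pow_le_pow_right (by norm_num) (by omega)
    have hDG : 2 * (D.card * Y) ≤ G.card := by
      have h1 : n * (2 * (D.card * Y)) ≤ n * G.card := by
        calc n * (2 * (D.card * Y)) = 2 * D.card * (Y * n) := by ring
          _ ≤ 2 * B * (400 ^ t * G.card) := Nat.mul_le_mul (Nat.mul_le_mul_left _ hD) hYn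
          _ = 2 * (B * 400 ^ t) * G.card := by ring
          _ ≤ 2 * (B * 400 ^ e) * G.card :=
            Nat.mul_le_mul_right _ (Nat.mul_le_mul_left _ (Nat.mul_le_mul_left _ h400))
          _ ≤ n * G.card := Nat.mul_le_mul_right _ hB
      exact Nat.le_of_mul_le_mul_left h1 hn
    set Λ := 4 * (Y / β + 1) + 8 * τ with hΛ
    have hΛ1 : 4 * Y * h ≤ Λ * S := by
      have h1 : Y ≤ (Y / β + 1) * β := by
        have := Nat.lt_div_mul_add (a := Y) hβ
        rw [Nat.add_mul, Nat.one_mul]
        exact this.le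
      calc 4 * Y * h ≤ 4 * ((Y / β + 1) * β) * h :=
            Nat.mul_le_mul_right _ (Nat.mul_le_mul_left _ h1)
        _ = (4 * (Y / β + 1)) * (h * β) := by ring
        _ ≤ Λ * (h * β) := Nat.mul_le_mul_right _ (by omega)
        _ = Λ * S := by rw [hSh]
    obtain ⟨Q', hQ', G', hG'G, hG'res, hcase⟩ := level_step P A M (hmem θ w₀) t Q hMN G hG D
      m₀ rv κh τ Y h Λ Hs hDgood hDG hY hτ hHs hhHs hS
      (by rw [hSh]; exact Nat.le_mul_of_pos_right _ hβ) (by omega) hΛ1 (by omega)
    refine ⟨Q ∪ Q', ?_, ?_⟩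
    · refine (card_union_le _ _).trans ?_
      rw [Nat.add_mul, Nat.one_mul]
      exact Nat.add_le_add hQ hQ'
    rcases hcase with ⟨hc1, hc2⟩ | ⟨hc1, hc2⟩
    · refine ⟨G', Y, hG'res, hc2, ?_, ?_⟩
      · calc n ^ 2 ≤ (22 * β) ^ t * G.card := hGn
          _ ≤ (22 * β) ^ t * (4 * G'.card) := Nat.mul_le_mul_left _ hc1
          _ ≤ (22 * β) ^ t * (22 * β * G'.card) :=
            Nat.mul_le_mul_left _ (Nat.mul_le_mul_right _ (by omega))
          _ = (22 * β) ^ (t + 1) * G'.card := by rw [pow_succ]; ring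
      · calc Y * n ≤ 400 ^ t * G.card := hYn
          _ ≤ 400 ^ t * (4 * G'.card) := Nat.mul_le_mul_left _ hc1
          _ ≤ 400 ^ t * (400 * G'.card) :=
            Nat.mul_le_mul_left _ (Nat.mul_le_mul_right _ (by norm_num))
          _ = 400 ^ (t + 1) * G'.card := by rw [pow_succ]; ring
    · have hGG' : G.card ≤ 22 * β * G'.card := by
        have h1 : h * (3 * G.card) ≤ h * (64 * β * G'.card) := by
          calc h * (3 * G.card) = 3 * (h * G.card) := by ring
            _ ≤ 64 * S * G'.card := hc1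
            _ = h * (64 * β * G'.card) := by rw [hSh]; ring
        have h2 := Nat.le_of_mul_le_mul_left h1 hh
        have h3 : 3 * (22 * β * G'.card) = 66 * (β * G'.card) := by ring
        have h4 : 64 * β * G'.card = 64 * (β * G'.card) := by ring
        omega
      have hsmall : (16 + 32 * τ) * β * n ≤ G.card := by
        have h1 := hτβ t (by omega)
        have h2 : (22 * β) ^ t * ((16 + 32 * τ) * β * n) ≤ (22 * β) ^ t * G.card := by
          calc (22 * β) ^ t * ((16 + 32 * τ) * β * n)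
              = ((16 + 32 * τ) * β * (22 * β) ^ t) * n := by ring
            _ ≤ n * n := Nat.mul_le_mul_right _ h1
            _ = n ^ 2 := (pow_two n).symm
            _ ≤ (22 * β) ^ t * G.card := hGn
        exact Nat.le_of_mul_le_mul_left h2 (Nat.pow_pos (by omega))
      refine ⟨G', 4 * Λ, hG'res, hc2, ?_, ?_⟩
      · calc n ^ 2 ≤ (22 * β) ^ t * G.card := hGn
          _ ≤ (22 * β) ^ t * (22 * β * G'.card) := Nat.mul_le_mul_left _ hGG'
          _ = (22 * β) ^ (t + 1) * G'.card := by rw [pow_succ]; ring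
      · have h1 : (4 * Λ * n) * β ≤ (400 ^ (t + 1) * G'.card) * β := by
          have h2 : Y / β * β ≤ Y := Nat.div_mul_le_self _ _
          calc (4 * Λ * n) * β = 16 * (Y / β * β) * n + (16 + 32 * τ) * β * n := by
                rw [hΛ]; ring
            _ ≤ 16 * Y * n + (16 + 32 * τ) * β * n :=
                Nat.add_le_add_right (Nat.mul_le_mul_right _ (Nat.mul_le_mul_left _ h2)) _
            _ = 16 * (Y * n) + (16 + 32 * τ) * β * n := by ring
            _ ≤ 16 * (400 ^ t * G.card) + G.card :=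
                Nat.add_le_add (Nat.mul_le_mul_left _ hYn) hsmall
            _ ≤ 16 * (400 ^ t * G.card) + 400 ^ t * G.card :=
                Nat.add_le_add_left (Nat.le_mul_of_pos_left _ (Nat.pow_pos (by norm_num))) _
            _ = 17 * 400 ^ t * G.card := by ring
            _ ≤ 17 * 400 ^ t * (22 * β * G'.card) := Nat.mul_le_mul_left _ hGG'
            _ = 374 * (400 ^ t * G'.card * β) := by ring
            _ ≤ 400 * (400 ^ t * G'.card * β) := Nat.mul_le_mul_right _ (by norm_num)
            _ = (400 ^ (t + 1) * G'.card) * β := by rw [pow_succ]; ring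
        exact Nat.le_of_mul_le_mul_right h1 hβ

end Pool.H54.TSG
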