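import Mathlib

/-!
Definitions: 3SUM-Indexing data structures with adaptive cell probes (MP_e016b3_lc).
-/

namespace Pool.H54.TSG

/-- A query algorithm with adaptive cell probes. The memory has `S` cells, each of which holds
one of `W` possible contents. `addr z l` is the address of the next cell which is read on query
`z` when the list `l` of contents has been read so far (latest content first), and `ans z l` is
the answer given on query `z` after the contents `l` have been read. -/
structure Scheme (S W : ℕ) where
  /-- address of the next probe -/
  addr : ℕ → List (Fin W) → Fin S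
  /-- the answer -/
  ans : ℕ → List (Fin W) → Bool

/-- The contents found by the first `t` probes on query `z` (latest first) in the memory `M`. -/
def Scheme.reads {S W : ℕ} (P : Scheme S W) (M : Fin S → Fin W) (z : ℕ) : ℕ → List (Fin W)
  | 0 => []
  | t + 1 => M (P.addr z (P.reads M z t)) :: P.reads M z t

/-- The answer on query `z` after `T` probes to the memory `M`. -/
def Scheme.run {S W : ℕ} (P : Scheme S W) (T : ℕ) (M : Fin S → Fin W) (z : ℕ) : Bool :=
  P.ans z (P.reads M z T)

/-- `P` solves 3SUM-Indexing with `T` probes for arrays with `n` entries in `{0, …, U - 1}`: for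
all pairs of arrays `A₁`, `A₂` there is a memory `M` for which every query `z` is answered
correctly. -/
def Scheme.Solves {S W : ℕ} (P : Scheme S W) (T n U : ℕ) : Prop :=
  ∀ A₁ A₂ : Fin n → Fin U, ∃ M : Fin S → Fin W, ∀ z : ℕ,
    P.run T M z = true ↔ ∃ a b : Fin n, (A₁ a : ℕ) + (A₂ b : ℕ) = z

end Pool.H54.TSG
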