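import Pool.Agent.H54.TSG.Pack

/-!
The families of local events: sequential lists of labels in small sets of queries, and
configurations of three runs (3SUM-Indexing cell probe lower bound for T probes, MP_e016b3_lc).
-/

namespace Pool.H54.TSG

open Finset Function Classical Pool.H54.TSUM

variable {n U : ℕ}

/-- end points of the labels of a list -/
noncomputable def verts (l : List (Label n)) : Finset (Vtx n) :=
  (univ : Finset (Vtx n)).filter (fun α => 0 < dg l α)

theorem verts_card (l : List (Label n)) : (verts l).card ≤ 2 * l.length := by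
  rw [← sum_dg, verts, card_filter]
  refine sum_le_sum (fun α _ => ?_)
  split_ifs <;> omega

theorem inl_mem_verts (l : List (Label n)) (g : Label n) (hg : g ∈ l) : Sum.inl g.1 ∈ verts l :=
  mem_filter.2 ⟨mem_univ _, (dg_inl_pos_iff l g.1).2 (List.mem_map_of_mem hg)⟩

theorem inr_mem_verts (l : List (Label n)) (g : Label n) (hg : g ∈ l) : Sum.inr g.2 ∈ verts l :=
  mem_filter.2 ⟨mem_univ _, (dg_inr_pos_iff l g.2).2 (List.mem_map_of_mem hg)⟩

/-- the label `g` has no end point in `D` -/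
def Avoids (D : Finset (Vtx n)) (g : Label n) : Prop := Sum.inl g.1 ∉ D ∧ Sum.inr g.2 ∉ D

theorem verts_disjoint (D : Finset (Vtx n)) (l : List (Label n)) (h : ∀ g ∈ l, Avoids D g) :
    Disjoint (verts l) D := by
  rw [disjoint_left]
  intro α hα hD
  rw [verts, mem_filter, dg_pos_iff] at hα
  obtain ⟨g, hg, ht⟩ := hα.2
  rcases ht with rfl | rfl
  · exact (h g hg).1 hD
  · exact (h g hg).2 hD

theorem zv_congr (A B : Arr n U) (l : List (Label n)) (h : ∀ v ∈ verts l, A v = B v)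
    (g : Label n) (hg : g ∈ l) : zv A g = zv B g := by
  unfold zv
  rw [h _ (inl_mem_verts l g hg), h _ (inr_mem_verts l g hg)]

/-! ### sequential families -/

section seqfam

variable {J : Type*}

/-- index set of a sequential family -/
noncomputable def seqI (Jf : Finset J) (G : J → Finset (Label n)) (q : ℕ) :
    Finset ((_ : J) × List (Label n)) :=
  Jf.sigma (fun j => (grow (fun _ => G j) q).filter (fun l => SeqL l))

/-- support of a member -/
noncomputable def seqSupp (i : (_ : J) × List (Label n)) : Finset (Vtx n) := verts i.2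

/-- event of a member -/
def seqEv (T : J → Finset ℕ) (i : (_ : J) × List (Label n)) (A : Arr n U) : Prop :=
  ∀ g ∈ i.2, zv A g ∈ T i.1

theorem seqSupp_card (Jf : Finset J) (G : J → Finset (Label n)) (q : ℕ)
    (i : (_ : J) × List (Label n)) (hi : i ∈ seqI Jf G q) : (seqSupp i).card ≤ 2 * q := by
  have h := (mem_filter.1 (mem_sigma.1 hi).2).1
  have := verts_card i.2
  rw [length_of_mem_grow _ _ _ h] at this
  exact this

theorem seqEv_dep (T : J → Finset ℕ) (i : (_ : J) × List (Label n)) (A B : Arr n U)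
    (h : ∀ v ∈ seqSupp i, A v = B v) (hA : seqEv T i A) : seqEv T i B := by
  intro g hg
  rw [← zv_congr A B i.2 h g hg]
  exact hA g hg

theorem seq_sum (Jf : Finset J) (T : J → Finset ℕ) (G : J → Finset (Label n))
    (q g τ κ N : ℕ) (hκ : 0 < κ) (hU : 0 < U) (hG : ∀ j ∈ Jf, (G j).card ≤ g)
    (hT : ∀ j ∈ Jf, (T j).card * κ ≤ τ)
    (hnum : N * (Jf.card * (g ^ q * τ ^ q)) ≤ U ^ q * κ ^ q) :
    N * ∑ i ∈ seqI Jf G q, ((univ : Finset (Arr n U)).filter (fun A => seqEv T i A)).card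
      ≤ U ^ (2 * n) := by
  have hpos : 0 < U ^ q * κ ^ q := Nat.mul_pos (Nat.pow_pos hU) (Nat.pow_pos hκ)
  have h1 : ∀ i ∈ seqI Jf G q,
      ((univ : Finset (Arr n U)).filter (fun A => seqEv T i A)).card * (U ^ q * κ ^ q) ≤
        U ^ (2 * n) * τ ^ q := by
    intro i hi
    have hj := (mem_sigma.1 hi).1
    have hl := mem_filter.1 (mem_sigma.1 hi).2
    have h2 := seq_count (U := U) (T i.1) i.2 hl.2
    rw [length_of_mem_grow _ _ _ hl.1] at h2
    have e1 : ((univ : Finset (Arr n U)).filter (fun A => seqEv T i A)).card =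
        ((univ : Finset (Arr n U)).filter (fun A => ∀ g ∈ i.2, zv A g ∈ T i.1)).card := by
      congr 1
      ext A
      rw [mem_filter, mem_filter]
      exact Iff.rfl
    rw [e1]
    calc _ = (((univ : Finset (Arr n U)).filter (fun A => ∀ g ∈ i.2, zv A g ∈ T i.1)).card *
          U ^ q) * κ ^ q := by ring
      _ ≤ (U ^ (2 * n) * (T i.1).card ^ q) * κ ^ q := Nat.mul_le_mul_right _ h2
      _ = U ^ (2 * n) * ((T i.1).card * κ) ^ q := by rw [mul_pow]; ring
      _ ≤ U ^ (2 * n) * τ ^ q :=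
          Nat.mul_le_mul_left _ (Nat.pow_le_pow_left (hT i.1 hj) q)
  have hI : (seqI Jf G q).card ≤ Jf.card * g ^ q := by
    unfold seqI
    rw [card_sigma]
    calc ∑ j ∈ Jf, ((grow (fun _ => G j) q).filter (fun l => SeqL l)).card
        ≤ ∑ j ∈ Jf, g ^ q := by
          refine sum_le_sum (fun j hj => (card_filter_le _ _).trans ?_)
          rw [card_grow_const]
          exact Nat.pow_le_pow_left (hG j hj) q
      _ = Jf.card * g ^ q := by rw [sum_const, smul_eq_mul]
  have h2 : (N * ∑ i ∈ seqI Jf G q,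
      ((univ : Finset (Arr n U)).filter (fun A => seqEv T i A)).card) * (U ^ q * κ ^ q) ≤
      U ^ (2 * n) * (U ^ q * κ ^ q) := by
    calc _ = N * ∑ i ∈ seqI Jf G q,
          ((univ : Finset (Arr n U)).filter (fun A => seqEv T i A)).card * (U ^ q * κ ^ q) := by
          rw [mul_assoc, sum_mul]
      _ ≤ N * ∑ i ∈ seqI Jf G q, U ^ (2 * n) * τ ^ q :=
          Nat.mul_le_mul_left _ (sum_le_sum h1)
      _ = N * ((seqI Jf G q).card * (U ^ (2 * n) * τ ^ q)) := by rw [sum_const, smul_eq_mul]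
      _ ≤ N * ((Jf.card * g ^ q) * (U ^ (2 * n) * τ ^ q)) :=
          Nat.mul_le_mul_left _ (Nat.mul_le_mul_right _ hI)
      _ = U ^ (2 * n) * (N * (Jf.card * (g ^ q * τ ^ q))) := by ring
      _ ≤ U ^ (2 * n) * (U ^ q * κ ^ q) := Nat.mul_le_mul_left _ hnum
  exact Nat.le_of_mul_le_mul_right h2 hpos

/-- consequence of goodness for families with all labels -/
theorem good_sq (Jf : Finset J) (T : J → Finset ℕ) (q B : ℕ) (A : Arr n U)
    (h : GoodFor (seqI Jf (fun _ => (univ : Finset (Label n))) q) seqSupp (seqEv T) B A) :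
    ∃ D : Finset (Vtx n), D.card ≤ B ∧ ∀ j ∈ Jf,
      ((univ : Finset (Label n)).filter (fun g => Avoids D g ∧ zv A g ∈ T j)).card
        ≤ (q - 1) ^ 2 := by
  obtain ⟨D, hD, h⟩ := h
  refine ⟨D, hD, fun j hj => ?_⟩
  by_contra hcon
  obtain ⟨l, h1, h2, h3⟩ := greedy_sq _ q (not_le.1 hcon)
  refine h ⟨j, l⟩ (mem_sigma.2 ⟨hj, mem_filter.2 ⟨(mem_grow_const _ _ _).2
    ⟨h2, fun g _ => mem_univ _⟩, h1⟩⟩) (fun g hg => (mem_filter.1 (h3 g hg)).2.2) ?_
  exact verts_disjoint D l (fun g hg => (mem_filter.1 (h3 g hg)).2.1)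

/-- consequence of goodness for families with labels through one vertex -/
theorem good_touch (Jf : Finset (Vtx n × J)) (T : J → Finset ℕ) (m₀ B : ℕ) (A : Arr n U)
    (h : GoodFor (seqI Jf (fun j => (univ : Finset (Label n)).filter (fun g => Touches j.1 g)) m₀)
      seqSupp (seqEv (fun j => T j.2)) B A) :
    ∃ D : Finset (Vtx n), D.card ≤ B ∧ ∀ j ∈ Jf,
      ((univ : Finset (Label n)).filter (fun g => Avoids D g ∧ Touches j.1 g ∧
        zv A g ∈ T j.2)).card ≤ m₀ := by
  obtain ⟨D, hD, h⟩ := h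
  refine ⟨D, hD, fun j hj => ?_⟩
  by_contra hcon
  obtain ⟨l, h1, h2, h3⟩ := greedy_touch j.1 _ (fun g hg => (mem_filter.1 hg).2.2.1) m₀
    (not_le.1 hcon).le
  refine h ⟨j, l⟩ (mem_sigma.2 ⟨hj, mem_filter.2 ⟨(mem_grow_const _ _ _).2
    ⟨h2, fun g hg => mem_filter.2 ⟨mem_univ _, (mem_filter.1 (h3 g hg)).2.2.1⟩⟩, h1⟩⟩)
    (fun g hg => (mem_filter.1 (h3 g hg)).2.2.2) ?_
  exact verts_disjoint D l (fun g hg => (mem_filter.1 (h3 g hg)).2.1)

end seqfam

/-! ### configurations -/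

section conf

variable {σ : Type*} [Fintype σ]

/-- index type of configurations -/
abbrev CIdx (n : ℕ) := (Fin 3 → List (Label n)) × ((Fin 3 × Fin 3) × (Vtx n × Vtx n))

/-- private vertices of a configuration -/
def CGood (q : CIdx n) : Prop :=
    q.2.1.1 ≠ q.2.1.2 ∧
      (dg (q.1 q.2.1.1) q.2.2.1 = 1 ∧ ∀ i, i ≠ q.2.1.1 → dg (q.1 i) q.2.2.1 = 0) ∧
      (dg (q.1 q.2.1.2) q.2.2.2 = 1 ∧ ∀ i, i ≠ q.2.1.2 → dg (q.1 i) q.2.2.2 = 0)

/-- index set of configurations -/
noncomputable def confI (n m : ℕ) : Finset (CIdx n) :=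
  ((Fintype.piFinset (fun _ : Fin 3 => grow (fun _ => (univ : Finset (Label n))) m)) ×ˢ
    univ).filter CGood

/-- support of a configuration -/
noncomputable def confSupp (q : CIdx n) : Finset (Vtx n) :=
  (univ : Finset (Fin 3)).biUnion (fun i => verts (q.1 i))

/-- event of a configuration -/
def confEv (Rel : ℕ → σ → σ → Prop) (q : CIdx n) (A : Arr n U) : Prop :=
  ∃ s t, ∀ i, Run Rel A 0 (q.1 i) s t

theorem confSupp_card (m : ℕ) (q : CIdx n) (hq : q ∈ confI n m) : (confSupp q).card ≤ 6 * m := by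
  have h := (mem_product.1 (mem_filter.1 hq).1).1
  rw [Fintype.mem_piFinset] at h
  refine (card_biUnion_le_card_mul _ _ (2 * m) (fun i _ => ?_)).trans ?_
  · have := verts_card (q.1 i)
    rw [length_of_mem_grow _ _ _ (h i)] at this
    exact this
  · rw [card_univ, Fintype.card_fin]
    apply le_of_eq; ring

omit [Fintype σ] in
theorem confEv_dep (Rel : ℕ → σ → σ → Prop) (q : CIdx n) (A B : Arr n U)
    (h : ∀ v ∈ confSupp q, A v = B v) (hA : confEv Rel q A) : confEv Rel q B := by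
  obtain ⟨s, t, hst⟩ := hA
  refine ⟨s, t, fun i => (run_congr Rel A B 0 (q.1 i) (fun g hg => ?_) s t).1 (hst i)⟩
  exact zv_congr A B (q.1 i) (fun v hv => h v (mem_biUnion.2 ⟨i, mem_univ _, hv⟩)) g hg

theorem conf_sum (Rel : ℕ → σ → σ → Prop) (K c m N : ℕ) (hK : 0 < K) (hU : 0 < U)
    (h1 : ∀ z s, ((univ : Finset σ).filter (fun t => Rel z s t)).card ≤ K)
    (h2 : ∀ z t, ((univ : Finset σ).filter (fun s => Rel z s t)).card ≤ K)
    (h3 : ∀ s t, ((range (2 * U)).filter (fun z => Rel z s t)).card ≤ c)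
    (hnum : N * ((((n ^ 2) ^ m) ^ 3 * (9 * (2 * n) ^ 2)) *
      (Fintype.card σ * (K ^ m * (K ^ m * (K ^ m * (K ^ m * (K ^ m * (c * c)))))))) ≤ U ^ 2) :
    N * ∑ q ∈ confI n m, ((univ : Finset (Arr n U)).filter (fun A => confEv Rel q A)).card
      ≤ U ^ (2 * n) := by
  have hIcard : (confI n m).card ≤ ((n ^ 2) ^ m) ^ 3 * (9 * (2 * n) ^ 2) := by
    refine (card_filter_le _ _).trans (le_of_eq ?_)
    rw [card_product, Fintype.card_piFinset]
    simp only [prod_const, card_univ, Fintype.card_fin, card_grow_const, Fintype.card_prod,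
      Fintype.card_sum]
    ring
  have hev : ∀ q ∈ confI n m,
      ((univ : Finset (Arr n U)).filter (fun A => confEv Rel q A)).card * U ^ 2 ≤
      U ^ (2 * n) *
        (Fintype.card σ * (K ^ m * (K ^ m * (K ^ m * (K ^ m * (K ^ m * (c * c))))))) := by
    intro q hq
    have hq1 := (mem_product.1 (mem_filter.1 hq).1).1
    rw [Fintype.mem_piFinset] at hq1
    obtain ⟨hab, hα, hβ⟩ := (mem_filter.1 hq).2
    have h := conf_count (U := U) Rel K c m hK h1 h2 h3 q.1
      (fun i => length_of_mem_grow _ _ _ (hq1 i)) _ _ hab _ _ hα hβ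
    refine le_trans (le_of_eq ?_) h
    congr 2
    ext A
    rw [mem_filter, mem_filter]
    exact Iff.rfl
  have h4 : (N * ∑ q ∈ confI n m,
      ((univ : Finset (Arr n U)).filter (fun A => confEv Rel q A)).card) * U ^ 2 ≤
      U ^ (2 * n) * U ^ 2 := by
    calc _ = N * ∑ q ∈ confI n m,
          ((univ : Finset (Arr n U)).filter (fun A => confEv Rel q A)).card * U ^ 2 := by
          rw [mul_assoc, sum_mul]
      _ ≤ N * ∑ q ∈ confI n m, (U ^ (2 * n) *
          (Fintype.card σ * (K ^ m * (K ^ m * (K ^ m * (K ^ m * (K ^ m * (c * c)))))))) :=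
          Nat.mul_le_mul_left _ (sum_le_sum hev)
      _ = N * ((confI n m).card * (U ^ (2 * n) *
          (Fintype.card σ * (K ^ m * (K ^ m * (K ^ m * (K ^ m * (K ^ m * (c * c))))))))) := by
          rw [sum_const, smul_eq_mul]
      _ ≤ N * ((((n ^ 2) ^ m) ^ 3 * (9 * (2 * n) ^ 2)) * (U ^ (2 * n) *
          (Fintype.card σ * (K ^ m * (K ^ m * (K ^ m * (K ^ m * (K ^ m * (c * c))))))))) :=
          Nat.mul_le_mul_left _ (Nat.mul_le_mul_right _ hIcard)
      _ = U ^ (2 * n) * (N * ((((n ^ 2) ^ m) ^ 3 * (9 * (2 * n) ^ 2)) *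
          (Fintype.card σ * (K ^ m * (K ^ m * (K ^ m * (K ^ m * (K ^ m * (c * c))))))))) := by
          ring
      _ ≤ U ^ (2 * n) * U ^ 2 := Nat.mul_le_mul_left _ hnum
  exact Nat.le_of_mul_le_mul_right h4 (Nat.pow_pos hU)

omit [Fintype σ] in
/-- consequence of goodness for configurations -/
theorem good_conf (Rel : ℕ → σ → σ → Prop) (m B : ℕ) (A : Arr n U)
    (h : GoodFor (confI n m) confSupp (confEv Rel) B A) :
    ∃ D : Finset (Vtx n), D.card ≤ B ∧ ∀ w : Fin 3 → List (Label n),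
      (∀ i, (w i).length = m) → (∀ i, ∀ g ∈ w i, Avoids D g) →
      (∃ a b : Fin 3, a ≠ b ∧ ∃ α β : Vtx n,
      (dg (w a) α = 1 ∧ ∀ i, i ≠ a → dg (w i) α = 0) ∧
      (dg (w b) β = 1 ∧ ∀ i, i ≠ b → dg (w i) β = 0)) →
      ¬ ∃ s t, ∀ i, Run Rel A 0 (w i) s t := by
  obtain ⟨D, hD, h⟩ := h
  refine ⟨D, hD, fun w hw hav ⟨a, b, hab, α, β, hα, hβ⟩ hst => ?_⟩
  refine h (w, ((a, b), (α, β))) ?_ hst ?_
  · refine mem_filter.2 ⟨mem_product.2 ⟨?_, mem_univ _⟩, hab, hα, hβ⟩
    rw [Fintype.mem_piFinset]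
    intro i
    rw [mem_grow_const]
    exact ⟨hw i, fun g _ => mem_univ _⟩
  · unfold confSupp
    rw [disjoint_biUnion_left]
    intro i _
    exact verts_disjoint D (w i) (hav i)

end conf

end Pool.H54.TSG
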