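import Pool.Agent.H54.TSG.Families
import Pool.Agent.H54.TSUM.Core

/-!
Heavy queries with a general threshold, and the final two-probe stage: a large set of labels
contains a configuration (3SUM-Indexing cell probe lower bound for T probes, MP_e016b3_lc).
-/

namespace Pool.H54.TSG

open Finset Function Classical Pool.H54.TSUM

section heavy

variable {σ : Type*} [Fintype σ]

/-- number of right states compatible with the left state `s` and the query `z` -/
noncomputable def nrL (L : ℕ) (Z : σ → σ → Finset ℕ) (s : σ) (z : ℕ) : ℕ :=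
  ((univ : Finset σ).filter (fun t => z ∈ Z s t ∧ (Z s t).card ≤ L)).card

/-- queries with more than `K` compatible right states -/
noncomputable def heavyL (U L : ℕ) (Z : σ → σ → Finset ℕ) (K : ℕ) (s : σ) : Finset ℕ :=
  (range (2 * U)).filter (fun z => K < nrL L Z s z)

theorem heavyL_card (U L : ℕ) (Z : σ → σ → Finset ℕ) (K : ℕ) (s : σ) :
    (heavyL U L Z K s).card * (K + 1) ≤ L * Fintype.card σ := by
  calc (heavyL U L Z K s).card * (K + 1) = ∑ z ∈ heavyL U L Z K s, (K + 1) := by
        rw [sum_const, smul_eq_mul]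
    _ ≤ ∑ z ∈ heavyL U L Z K s, nrL L Z s z :=
        sum_le_sum (fun z hz => (mem_filter.1 hz).2)
    _ = ∑ z ∈ heavyL U L Z K s, ∑ t : σ, (if z ∈ Z s t ∧ (Z s t).card ≤ L then 1 else 0) := by
        refine sum_congr rfl (fun z _ => ?_)
        rw [nrL, card_filter]
    _ = ∑ t : σ, ∑ z ∈ heavyL U L Z K s, (if z ∈ Z s t ∧ (Z s t).card ≤ L then 1 else 0) :=
        sum_comm
    _ ≤ ∑ t : σ, L := by
        refine sum_le_sum (fun t _ => ?_)
        by_cases h : (Z s t).card ≤ L
        · calc _ ≤ ((heavyL U L Z K s).filter (fun z => z ∈ Z s t ∧ (Z s t).card ≤ L)).card := by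
                rw [card_filter]
            _ ≤ (Z s t).card := card_le_card (fun z hz => (mem_filter.1 hz).2.1)
            _ ≤ L := h
        · have : ∑ z ∈ heavyL U L Z K s,
              (if z ∈ Z s t ∧ (Z s t).card ≤ L then 1 else 0) = 0 := by
            refine sum_eq_zero (fun z _ => ?_)
            rw [if_neg (fun hc => h hc.2)]
          rw [this]; exact Nat.zero_le _
    _ = L * Fintype.card σ := by rw [sum_const, smul_eq_mul, card_univ, mul_comm]

/-- the relation between left and right states used for the runs -/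
def RelL (L : ℕ) (Z : σ → σ → Finset ℕ) (K : ℕ) (z : ℕ) (s t : σ) : Prop :=
  z ∈ Z s t ∧ (Z s t).card ≤ L ∧ nrL L Z s z ≤ K ∧ nrL L (fun a b => Z b a) t z ≤ K

theorem relL_right (L : ℕ) (Z : σ → σ → Finset ℕ) (K : ℕ) (z : ℕ) (s : σ) :
    ((univ : Finset σ).filter (fun t => RelL L Z K z s t)).card ≤ K := by
  by_cases h : nrL L Z s z ≤ K
  · refine le_trans (card_le_card (fun t ht => ?_)) h
    have h1 := (mem_filter.1 ht).2
    exact mem_filter.2 ⟨mem_univ _, h1.1, h1.2.1⟩
  · have : (univ : Finset σ).filter (fun t => RelL L Z K z s t) = ∅ := by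
      rw [filter_eq_empty_iff]
      intro t _ h1
      exact h h1.2.2.1
    rw [this]; exact Nat.zero_le _

theorem relL_left (L : ℕ) (Z : σ → σ → Finset ℕ) (K : ℕ) (z : ℕ) (t : σ) :
    ((univ : Finset σ).filter (fun s => RelL L Z K z s t)).card ≤ K := by
  by_cases h : nrL L (fun a b => Z b a) t z ≤ K
  · refine le_trans (card_le_card (fun s hs => ?_)) h
    have h1 := (mem_filter.1 hs).2
    exact mem_filter.2 ⟨mem_univ _, h1.1, h1.2.1⟩
  · have : (univ : Finset σ).filter (fun s => RelL L Z K z s t) = ∅ := by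
      rw [filter_eq_empty_iff]
      intro s _ h1
      exact h h1.2.2.2
    rw [this]; exact Nat.zero_le _

theorem relL_z (L : ℕ) (Z : σ → σ → Finset ℕ) (K U : ℕ) (s t : σ) :
    ((range (2 * U)).filter (fun z => RelL L Z K z s t)).card ≤ L := by
  by_cases h : (Z s t).card ≤ L
  · refine le_trans (card_le_card (fun z hz => ?_)) h
    exact (mem_filter.1 hz).2.1
  · have : (range (2 * U)).filter (fun z => RelL L Z K z s t) = ∅ := by
      rw [filter_eq_empty_iff]
      intro z _ h1
      exact h h1.2.1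
    rw [this]; exact Nat.zero_le _

end heavy

section final

variable {n U S W : ℕ}

/-- The final stage: a large set of labels contains a configuration. -/
theorem final_stage {V : Type*} [DecidableEq V] (A : Arr n U) (M : Fin S → Fin W)
    (L : ℕ) (Z : Fin S × Fin W → Fin S × Fin W → Finset ℕ) (G₀ : Finset (Label n))
    (iL jR : Label n → Fin S)
    (hz : ∀ g ∈ G₀, zv A g ∈ Z (iL g, M (iL g)) (jR g, M (jR g)))
    (hZ : ∀ g ∈ G₀, (Z (iL g, M (iL g)) (jR g, M (jR g))).card ≤ L)
    (γ : Label n → V) (hγ : ∀ g g', γ g = γ g' → iL g = iL g')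
    (hγS : (G₀.image γ).card ≤ 5 * S)
    (K q p m₀ r D : ℕ) (hp : 0 < p) (hr : 0 < r) (hD : 0 < D)
    (hb : ∀ s : Fin S × Fin W, (G₀.filter
        (fun g => zv A g ∈ heavyL U L Z K s)).card ≤ (q - 1) ^ 2)
    (hc : ∀ s : Fin S × Fin W, (G₀.filter
        (fun g => zv A g ∈ heavyL U L (fun a b => Z b a) K s)).card ≤ (q - 1) ^ 2)
    (hd : ∀ (α : Vtx n) (v : V), (G₀.filter (fun g => γ g = v ∧ Touches α g)).card ≤ m₀)
    (hq : 2 * (2 * (S * (q - 1) ^ 2)) ≤ G₀.card)
    (hrS : G₀.card ≤ r * S)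
    (hDS : (D - 1) * (16 * S) < G₀.card)
    (hnum : ((2 * (12 * p) * m₀ + (12 * p) ^ 2 + 1) * r) ^ (12 * p) * (6 * S) ^ 3 <
      r ^ p * D ^ (12 * p)) :
    ∃ w : Fin 3 → List (Label n),
      (∀ i, (w i).length = 4 * p) ∧ (∀ i, ∀ g ∈ w i, g ∈ G₀) ∧
      (∃ a b : Fin 3, a ≠ b ∧ ∃ α β : Vtx n,
      (dg (w a) α = 1 ∧ ∀ i, i ≠ a → dg (w i) α = 0) ∧
      (dg (w b) β = 1 ∧ ∀ i, i ≠ b → dg (w i) β = 0)) ∧
      ∃ s t, ∀ i, Run (RelL L Z K) A 0 (w i) s t := by
  set sL : Label n → Fin S × Fin W := fun g => (iL g, M (iL g)) with hsL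
  set sR : Label n → Fin S × Fin W := fun g => (jR g, M (jR g)) with hsR
  -- good labels
  set E₀ : Finset (Label n) := G₀.filter (fun g => zv A g ∉ heavyL U L Z K (sL g) ∧
    zv A g ∉ heavyL U L (fun a b => Z b a) K (sR g)) with hE₀
  have hE₀G : E₀ ⊆ G₀ := filter_subset _ _
  have hrel : ∀ g ∈ E₀, RelL L Z K (zv A g) (sL g) (sR g) := by
    intro g hg
    rw [hE₀, mem_filter] at hg
    obtain ⟨hgG, h1, h2⟩ := hg
    refine ⟨hz g hgG, hZ g hgG, ?_, ?_⟩
    · by_contra hcon
      exact h1 (mem_filter.2 ⟨mem_range.2 (zv_lt A g), not_le.1 hcon⟩)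
    · by_contra hcon
      exact h2 (mem_filter.2 ⟨mem_range.2 (zv_lt A g), not_le.1 hcon⟩)
  have hbadL : (G₀.filter (fun g => zv A g ∈ heavyL U L Z K (sL g))).card ≤
      S * (q - 1) ^ 2 := by
    have hsub : G₀.filter (fun g => zv A g ∈ heavyL U L Z K (sL g)) ⊆
        (univ : Finset (Fin S)).biUnion (fun i => G₀.filter
          (fun g => zv A g ∈ heavyL U L Z K (i, M i))) := by
      intro g hg
      rw [mem_biUnion]
      exact ⟨iL g, mem_univ _, mem_filter.2 ⟨(mem_filter.1 hg).1, (mem_filter.1 hg).2⟩⟩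
    refine (card_le_card hsub).trans ((card_biUnion_le_card_mul _ _ _
      (fun i _ => hb (i, M i))).trans ?_)
    rw [card_univ, Fintype.card_fin]
  have hbadR : (G₀.filter (fun g => zv A g ∈ heavyL U L (fun a b => Z b a) K (sR g))).card ≤
      S * (q - 1) ^ 2 := by
    have hsub : G₀.filter (fun g => zv A g ∈ heavyL U L (fun a b => Z b a) K (sR g)) ⊆
        (univ : Finset (Fin S)).biUnion (fun i => G₀.filter
          (fun g => zv A g ∈ heavyL U L (fun a b => Z b a) K (i, M i))) := by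
      intro g hg
      rw [mem_biUnion]
      exact ⟨jR g, mem_univ _, mem_filter.2 ⟨(mem_filter.1 hg).1, (mem_filter.1 hg).2⟩⟩
    refine (card_le_card hsub).trans ((card_biUnion_le_card_mul _ _ _
      (fun i _ => hc (i, M i))).trans ?_)
    rw [card_univ, Fintype.card_fin]
  have hcardE₀ : G₀.card ≤ E₀.card + 2 * (S * (q - 1) ^ 2) := by
    have hcov : G₀ ⊆ E₀ ∪ ((G₀.filter
      (fun g => zv A g ∈ heavyL U L Z K (sL g))) ∪ (G₀.filter
      (fun g => zv A g ∈ heavyL U L (fun a b => Z b a) K (sR g)))) := by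
      intro g hg
      rw [mem_union, mem_union, hE₀, mem_filter, mem_filter, mem_filter]
      by_cases h1 : zv A g ∈ heavyL U L Z K (sL g)
      · exact Or.inr (Or.inl ⟨hg, h1⟩)
      · by_cases h2 : zv A g ∈ heavyL U L (fun a b => Z b a) K (sR g)
        · exact Or.inr (Or.inr ⟨hg, h2⟩)
        · exact Or.inl ⟨hg, h1, h2⟩
    have h1 := (card_le_card hcov).trans (card_union_le _ _)
    have h2 := card_union_le (G₀.filter
      (fun g => zv A g ∈ heavyL U L Z K (sL g))) (G₀.filter
      (fun g => zv A g ∈ heavyL U L (fun a b => Z b a) K (sR g)))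
    omega
  have hE₀le : E₀.card ≤ G₀.card := card_le_card hE₀G
  -- left vertices
  obtain ⟨γL, hγL1, hγL2, hγL3⟩ := chunk E₀ γ r hr
  have himL : (E₀.image γ).card ≤ 5 * S :=
    (card_le_card (image_subset_image hE₀G)).trans hγS
  have hS3 : (E₀.image γL).card ≤ 6 * S := by
    have h1 : r * (E₀.image γL).card ≤ r * S + r * (5 * S) :=
      hγL3.trans (Nat.add_le_add (hE₀le.trans hrS) (Nat.mul_le_mul_left _ himL))
    rw [← Nat.mul_add] at h1
    have := Nat.le_of_mul_le_mul_left h1 hr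
    omega
  -- right vertices
  obtain ⟨γR, hγR1, hγR2, hγR3⟩ := chunk E₀ jR r hr
  have himR : (E₀.image jR).card ≤ S := by
    refine (card_le_univ _).trans ?_
    rw [Fintype.card_fin]
  have hS2 : (E₀.image γR).card ≤ 2 * S := by
    have h1 : r * (E₀.image γR).card ≤ r * S + r * S :=
      hγR3.trans (Nat.add_le_add (hE₀le.trans hrS) (Nat.mul_le_mul_left _ himR))
    rw [← Nat.mul_add] at h1
    have := Nat.le_of_mul_le_mul_left h1 hr
    omega
  -- pruning
  obtain ⟨E, hEsub, hEne, hEdeg⟩ := prune γL γR D hD E₀ (by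
    have h1 : (D - 1) * ((E₀.image γL).card + (E₀.image γR).card) ≤ (D - 1) * (8 * S) :=
      Nat.mul_le_mul_left _ (by omega)
    have h2 : (D - 1) * (16 * S) = 2 * ((D - 1) * (8 * S)) := by ring
    omega)
  -- the graph lemma
  obtain ⟨u, v, w, hw, hlast, hpriv⟩ := graph_lemma E γL γR p m₀ r D (6 * S) hp hr hEne hEdeg
    (by
      intro α v
      refine le_trans (card_le_card ?_) (hd α v.1)
      intro g hg
      obtain ⟨h0, h1, h2⟩ := mem_filter.1 hg
      refine mem_filter.2 ⟨hE₀G (hEsub h0), ?_, h2⟩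
      rw [← h1, hγL1])
    (fun v => (card_le_card (filter_subset_filter _ hEsub)).trans (hγL2 v))
    (fun v => (card_le_card (filter_subset_filter _ hEsub)).trans (hγR2 v))
    ((card_le_card (image_subset_image hEsub)).trans hS3) hnum
  have hlen : ∀ i, (w i).length = 4 * p := fun i => length_of_mem_grow _ _ _ (hw i)
  refine ⟨w, hlen, fun i g hg => hE₀G (hEsub
    (grow_subset_E E _ (wext_subset E γL γR u) _ _ (hw i) g hg)), hpriv, ?_⟩
  have hLs : ∀ g g', γL g = γL g' → sL g = sL g' := by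
    intro g g' h
    have h2 : iL g = iL g' := hγ g g' (by rw [← hγL1 g, ← hγL1 g', h])
    show (iL g, M (iL g)) = (iL g', M (iL g'))
    rw [h2]
  have hRs : ∀ g g', γR g = γR g' → sR g = sR g' := by
    intro g g' h
    have h1 : jR g = jR g' := by rw [← hγR1 g, ← hγR1 g', h]
    show (jR g, M (jR g)) = (jR g', M (jR g'))
    rw [h1]
  have hrelE : ∀ g ∈ E, RelL L Z K (zv A g) (sL g) (sR g) := fun g hg => hrel g (hEsub hg)
  -- the vertices u and v are left vertices of labels
  have hu : ∃ g₀, γL g₀ = u := by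
    have h0 := hw 0
    have hl0 := hlen 0
    have aux : ∀ (k : ℕ) (l : List (Label n)), l ∈ grow (wext E γL γR u) k → 0 < l.length →
        ∃ g₀, γL g₀ = u := by
      intro k
      induction k with
      | zero =>
        intro l hl hpos
        have := length_of_mem_grow _ _ _ hl
        omega
      | succ k ih =>
        intro l hl _
        obtain ⟨g, l', rfl, h1, h2⟩ := exists_of_mem_grow_succ _ k l hl
        cases l' with
        | nil =>
          have h3 : g ∈ E.filter (fun g => γL g = u) := h2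
          exact ⟨g, (mem_filter.1 h3).2⟩
        | cons h t => exact ih (h :: t) h1 (by simp)
    exact aux _ _ h0 (by omega)
  obtain ⟨g₀, rfl⟩ := hu
  obtain ⟨h₀, t₀, hw0, hv0⟩ := hlast 0
  refine ⟨sL g₀, sL h₀, fun i => ?_⟩
  obtain ⟨hi, ti, hwi, hvi⟩ := hlast i
  have h1 := hw i
  rw [hwi] at h1
  have h2 := (run_of_walk (RelL L Z K) A E γL γR sL sR hLs hRs hrelE g₀ _ hi ti h1).2 (by
    have h3 := hlen i
    rw [hwi, List.length_cons] at h3
    intro hc
    obtain ⟨c, hc⟩ := hc
    omega)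
  rw [hwi]
  have h3 : sL hi = sL h₀ := hLs _ _ (hvi.trans hv0.symm)
  rw [← h3]
  exact h2

end final

end Pool.H54.TSG
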