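import Pool.Agent.H54.TSG.Families

/-!
Greedy choice of few cells that contain many labels which are well spread over the label
vertices (3SUM-Indexing cell probe lower bound for T probes, MP_e016b3_lc).
-/

namespace Pool.H54.TSG

open Finset Function Classical Pool.H54.TSUM

variable {n S : ℕ}

/-- degree of a label vertex in a finite set of labels -/
noncomputable def dF (F : Finset (Label n)) (α : Vtx n) : ℕ :=
  (F.filter (fun g => Touches α g)).card

theorem sum_dF (F : Finset (Label n)) : ∑ α : Vtx n, dF F α = 2 * F.card := by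
  unfold dF
  simp only [card_filter]
  rw [sum_comm]
  simp only [sum_touches]
  rw [sum_const, smul_eq_mul, mul_comm]

theorem dF_mono {F F' : Finset (Label n)} (h : F ⊆ F') (α : Vtx n) : dF F α ≤ dF F' α :=
  card_le_card (filter_subset_filter _ h)

/-- labels of `G` in the classes `Q` -/
noncomputable def cls (G : Finset (Label n)) (κ : Label n → Fin S) (Q : Finset (Fin S)) :
    Finset (Label n) := G.filter (fun g => κ g ∈ Q)

theorem cls_insert (G : Finset (Label n)) (κ : Label n → Fin S) (Q : Finset (Fin S)) (c : Fin S)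
    (hc : c ∉ Q) : cls G κ (insert c Q) = cls G κ Q ∪ cls G κ {c} ∧
      Disjoint (cls G κ Q) (cls G κ {c}) := by
  constructor
  · ext g
    simp only [cls, mem_filter, mem_union, mem_insert, mem_singleton]
    tauto
  · rw [disjoint_left]
    intro g h1 h2
    have e1 := (mem_filter.1 h1).2
    have e2 := mem_singleton.1 (mem_filter.1 h2).2
    rw [e2] at e1
    exact hc e1

theorem card_cls_insert (G : Finset (Label n)) (κ : Label n → Fin S) (Q : Finset (Fin S))
    (c : Fin S) (hc : c ∉ Q) :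
    (cls G κ (insert c Q)).card = (cls G κ Q).card + (cls G κ {c}).card := by
  obtain ⟨h1, h2⟩ := cls_insert G κ Q c hc
  rw [h1, card_union_of_disjoint h2]

theorem dF_cls_insert (G : Finset (Label n)) (κ : Label n → Fin S) (Q : Finset (Fin S))
    (c : Fin S) (hc : c ∉ Q) (α : Vtx n) :
    dF (cls G κ (insert c Q)) α = dF (cls G κ Q) α + dF (cls G κ {c}) α := by
  obtain ⟨h1, h2⟩ := cls_insert G κ Q c hc
  unfold dF
  rw [h1, filter_union, card_union_of_disjoint]
  exact disjoint_filter_filter h2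

theorem card_split (G : Finset (Label n)) (κ : Label n → Fin S) (Q : Finset (Fin S)) :
    G.card = (cls G κ Q).card + ∑ c ∈ Qᶜ, (cls G κ {c}).card := by
  have h1 : G.card = (cls G κ Q).card + (G.filter (fun g => ¬ κ g ∈ Q)).card :=
    (card_filter_add_card_filter_not _).symm
  rw [h1]
  congr 1
  rw [card_eq_sum_card_fiberwise (f := κ) (t := Qᶜ)]
  · refine sum_congr rfl (fun c hc => ?_)
    congr 1
    ext g
    simp only [cls, mem_filter, mem_singleton]
    constructor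
    · rintro ⟨⟨h1, _⟩, h3⟩; exact ⟨h1, h3⟩
    · rintro ⟨h1, h3⟩
      refine ⟨⟨h1, ?_⟩, h3⟩
      rw [h3]; exact mem_compl.1 hc
  · intro g hg
    exact mem_coe.2 (mem_compl.2 (mem_filter.1 (mem_coe.1 hg)).2)

theorem sum_dF_cls_le (G : Finset (Label n)) (κ : Label n → Fin S) (Q : Finset (Fin S))
    (α : Vtx n) : ∑ c ∈ Qᶜ, dF (cls G κ {c}) α ≤ dF G α := by
  have h := card_split (G.filter (fun g => Touches α g)) κ Q
  have h2 : ∀ c, dF (cls G κ {c}) α =
      (cls (G.filter (fun g => Touches α g)) κ {c}).card := by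
    intro c
    unfold dF cls
    congr 1
    ext g
    simp only [mem_filter]
    tauto
  simp only [h2]
  unfold dF
  omega

theorem sample_step (G : Finset (Label n)) (κ : Label n → Fin S) (Y τ Λ h : ℕ)
    (hY : ∀ α, dF G α ≤ Y)
    (hτ : ∀ α c, dF (cls G κ {c}) α ≤ τ)
    (hS : 0 < S) (hh : h ≤ S) (hΛ : 0 < Λ) (hΛ1 : 4 * Y * h ≤ Λ * S) (hΛ2 : 8 * τ ≤ Λ)
    (Q : Finset (Fin S)) (hQ : 4 * S * (cls G κ Q).card < h * G.card) :
    ∃ c ∉ Q, Λ * G.card + 4 * S * ∑ α : Vtx n, dF (cls G κ (insert c Q)) α ^ 2 ≤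
      4 * S * (Λ * (cls G κ {c}).card) + 4 * S * ∑ α : Vtx n, dF (cls G κ Q) α ^ 2 := by
  by_contra hcon
  push Not at hcon
  set X := (cls G κ Q).card with hX
  -- the complement is nonempty
  have hsplit := card_split G κ Q
  rw [← hX] at hsplit
  have hX4 : 4 * X < G.card := by
    by_contra hc
    have h1 : h * G.card ≤ S * (4 * X) := Nat.mul_le_mul hh (not_lt.1 hc)
    have h2 : S * (4 * X) = 4 * S * X := by ring
    omega
  have hne : (Qᶜ).Nonempty := by
    rw [nonempty_iff_ne_empty]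
    intro he
    rw [he, sum_empty] at hsplit
    omega
  -- increments
  set inc : Fin S → ℕ := fun c => ∑ α : Vtx n,
    (2 * dF (cls G κ Q) α * dF (cls G κ {c}) α + dF (cls G κ {c}) α ^ 2) with hinc
  have hE : ∀ c ∈ Qᶜ, ∑ α : Vtx n, dF (cls G κ (insert c Q)) α ^ 2 =
      (∑ α : Vtx n, dF (cls G κ Q) α ^ 2) + inc c := by
    intro c hc
    rw [hinc, ← sum_add_distrib]
    refine sum_congr rfl (fun α _ => ?_)
    rw [dF_cls_insert G κ Q c (mem_compl.1 hc) α]
    ring
  have hlt : ∀ c ∈ Qᶜ, 4 * S * (Λ * (cls G κ {c}).card) < Λ * G.card + 4 * S * inc c := by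
    intro c hc
    have h1 := hcon c (mem_compl.1 hc)
    rw [hE c hc, Nat.mul_add] at h1
    omega
  have hsum := sum_lt_sum_of_nonempty hne hlt
  rw [sum_add_distrib, sum_const, smul_eq_mul, ← mul_sum, ← mul_sum, ← mul_sum] at hsum
  -- bound for the sum of the increments
  have hinc1 : ∑ c ∈ Qᶜ, inc c ≤ 4 * Y * X + 2 * τ * G.card := by
    rw [hinc]
    simp only [sum_add_distrib]
    refine Nat.add_le_add ?_ ?_
    · rw [sum_comm]
      calc ∑ α : Vtx n, ∑ c ∈ Qᶜ, 2 * dF (cls G κ Q) α * dF (cls G κ {c}) α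
          = ∑ α : Vtx n, 2 * dF (cls G κ Q) α * ∑ c ∈ Qᶜ, dF (cls G κ {c}) α := by
            refine sum_congr rfl (fun α _ => ?_)
            rw [mul_sum]
        _ ≤ ∑ α : Vtx n, 2 * dF (cls G κ Q) α * Y := by
            refine sum_le_sum (fun α _ => Nat.mul_le_mul_left _ ?_)
            exact (sum_dF_cls_le G κ Q α).trans (hY α)
        _ = (∑ α : Vtx n, dF (cls G κ Q) α) * (2 * Y) := by
            rw [sum_mul]
            refine sum_congr rfl (fun α _ => by ring)
        _ = 4 * Y * X := by rw [sum_dF, hX]; ring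
    · rw [sum_comm]
      calc ∑ α : Vtx n, ∑ c ∈ Qᶜ, dF (cls G κ {c}) α ^ 2
          ≤ ∑ α : Vtx n, ∑ c ∈ Qᶜ, τ * dF (cls G κ {c}) α := by
            refine sum_le_sum (fun α _ => sum_le_sum (fun c _ => ?_))
            rw [pow_two]
            exact Nat.mul_le_mul_right _ (hτ α c)
        _ = ∑ α : Vtx n, τ * ∑ c ∈ Qᶜ, dF (cls G κ {c}) α := by
            refine sum_congr rfl (fun α _ => ?_)
            rw [mul_sum]
        _ ≤ ∑ α : Vtx n, τ * dF G α :=
            sum_le_sum (fun α _ => Nat.mul_le_mul_left _ (sum_dF_cls_le G κ Q α))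
        _ = 2 * τ * G.card := by rw [← mul_sum, sum_dF]; ring
  have hQc : (Qᶜ).card ≤ S := by
    refine (card_le_univ _).trans ?_
    rw [Fintype.card_fin]
  set Y' := ∑ c ∈ Qᶜ, (cls G κ {c}).card with hY'
  -- combine
  have h1 : 4 * S * (Λ * Y') < S * (Λ * G.card) + 4 * S * (4 * Y * X + 2 * τ * G.card) := by
    calc 4 * S * (Λ * Y') < (Qᶜ).card * (Λ * G.card) + 4 * S * ∑ c ∈ Qᶜ, inc c := hsum
      _ ≤ S * (Λ * G.card) + 4 * S * (4 * Y * X + 2 * τ * G.card) :=
        Nat.add_le_add (Nat.mul_le_mul_right _ hQc) (Nat.mul_le_mul_left _ hinc1)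
  have h2 : 4 * (Λ * Y') < Λ * G.card + (16 * Y * X + 8 * τ * G.card) := by
    have h3 : S * (4 * (Λ * Y')) < S * (Λ * G.card + (16 * Y * X + 8 * τ * G.card)) := by
      calc S * (4 * (Λ * Y')) = 4 * S * (Λ * Y') := by ring
        _ < _ := h1
        _ = _ := by ring
    exact Nat.lt_of_mul_lt_mul_left h3
  have h3 : 16 * Y * X ≤ Λ * G.card := by
    have h4 : S * (16 * Y * X) ≤ S * (Λ * G.card) := by
      calc S * (16 * Y * X) = 4 * Y * (4 * S * X) := by ring
        _ ≤ 4 * Y * (h * G.card) := Nat.mul_le_mul_left _ hQ.le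
        _ = (4 * Y * h) * G.card := by ring
        _ ≤ (Λ * S) * G.card := Nat.mul_le_mul_right _ hΛ1
        _ = S * (Λ * G.card) := by ring
    exact Nat.le_of_mul_le_mul_left h4 hS
  have h4 : 8 * τ * G.card ≤ Λ * G.card := Nat.mul_le_mul_right _ hΛ2
  have h5 : Λ * (4 * X) ≤ Λ * G.card := Nat.mul_le_mul_left _ hX4.le
  have h6 : Λ * G.card = Λ * X + Λ * Y' := by rw [hsplit]; ring
  have h7 : Λ * (4 * X) = 4 * (Λ * X) := by ring
  omega

theorem sample_greedy (G : Finset (Label n)) (κ : Label n → Fin S) (Y τ Λ h : ℕ)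
    (hY : ∀ α, dF G α ≤ Y)
    (hτ : ∀ α c, dF (cls G κ {c}) α ≤ τ)
    (hS : 0 < S) (hh : h ≤ S) (hΛ : 0 < Λ) (hΛ1 : 4 * Y * h ≤ Λ * S) (hΛ2 : 8 * τ ≤ Λ)
    (j : ℕ) : ∃ Q : Finset (Fin S), Q.card ≤ j ∧
      ∑ α : Vtx n, dF (cls G κ Q) α ^ 2 ≤ Λ * (cls G κ Q).card ∧
      (h * G.card ≤ 4 * S * (cls G κ Q).card ∨
        j * (Λ * G.card) + 4 * S * ∑ α : Vtx n, dF (cls G κ Q) α ^ 2 ≤
          4 * S * (Λ * (cls G κ Q).card)) := by
  induction j with
  | zero =>
    have h0 : cls G κ ∅ = ∅ := by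
      unfold cls
      rw [filter_eq_empty_iff]
      intro g _ hc
      exact absurd hc (notMem_empty _)
    have h1 : ∀ α, dF (cls G κ ∅) α = 0 := by
      intro α
      rw [h0]; rfl
    refine ⟨∅, by simp, by simp [h1], Or.inr (by simp [h1])⟩
  | succ j ih =>
    obtain ⟨Q, hQ1, hQ2, hQ3⟩ := ih
    rcases hQ3 with hQ3 | hQ3
    · exact ⟨Q, by omega, hQ2, Or.inl hQ3⟩
    · by_cases hX : h * G.card ≤ 4 * S * (cls G κ Q).card
      · exact ⟨Q, by omega, hQ2, Or.inl hX⟩
      · obtain ⟨c, hc, hstep⟩ := sample_step G κ Y τ Λ h hY hτ hS hh hΛ hΛ1 hΛ2 Q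
          (not_le.1 hX)
        refine ⟨insert c Q, (card_insert_le _ _).trans (by omega), ?_, Or.inr ?_⟩
        · rw [card_cls_insert G κ Q c hc]
          have h1 : 4 * S * ∑ α : Vtx n, dF (cls G κ (insert c Q)) α ^ 2 ≤
              4 * S * (Λ * ((cls G κ Q).card + (cls G κ {c}).card)) := by
            calc _ ≤ 4 * S * (Λ * (cls G κ {c}).card) +
                  4 * S * ∑ α : Vtx n, dF (cls G κ Q) α ^ 2 := by omega
              _ ≤ 4 * S * (Λ * (cls G κ {c}).card) + 4 * S * (Λ * (cls G κ Q).card) :=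
                  Nat.add_le_add_left (Nat.mul_le_mul_left _ hQ2) _
              _ = _ := by ring
          exact Nat.le_of_mul_le_mul_left h1 (by omega)
        · rw [card_cls_insert G κ Q c hc]
          have e1 : (j + 1) * (Λ * G.card) = j * (Λ * G.card) + Λ * G.card := by ring
          have e2 : 4 * S * (Λ * ((cls G κ Q).card + (cls G κ {c}).card)) =
            4 * S * (Λ * (cls G κ Q).card) + 4 * S * (Λ * (cls G κ {c}).card) := by ring
          rw [e1, e2]
          omega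

/-- Sampling lemma. -/
theorem sample (G : Finset (Label n)) (κ : Label n → Fin S) (Y τ Λ h : ℕ)
    (hY : ∀ α, dF G α ≤ Y)
    (hτ : ∀ α c, dF (cls G κ {c}) α ≤ τ)
    (hS : 0 < S) (hh : h ≤ S) (hΛ : 0 < Λ) (hΛ1 : 4 * Y * h ≤ Λ * S) (hΛ2 : 8 * τ ≤ Λ) :
    ∃ Q : Finset (Fin S), Q.card ≤ h ∧ ∃ G' ⊆ cls G κ Q,
      3 * (h * G.card) ≤ 16 * S * G'.card ∧ ∀ α, dF G' α ≤ 4 * Λ := by
  obtain ⟨Q, hQ1, hQ2, hQ3⟩ := sample_greedy G κ Y τ Λ h hY hτ hS hh hΛ hΛ1 hΛ2 h
  have hX : h * G.card ≤ 4 * S * (cls G κ Q).card := by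
    rcases hQ3 with h1 | h1
    · exact h1
    · have h2 : Λ * (h * G.card) ≤ Λ * (4 * S * (cls G κ Q).card) := by
        calc Λ * (h * G.card) = h * (Λ * G.card) := by ring
          _ ≤ h * (Λ * G.card) + 4 * S * ∑ α : Vtx n, dF (cls G κ Q) α ^ 2 := Nat.le_add_right _ _
          _ ≤ 4 * S * (Λ * (cls G κ Q).card) := h1
          _ = _ := by ring
      exact Nat.le_of_mul_le_mul_left h2 hΛ
  set F := cls G κ Q with hF
  set G' := F.filter (fun g => dF F (Sum.inl g.1) ≤ 4 * Λ ∧ dF F (Sum.inr g.2) ≤ 4 * Λ) with hG'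
  refine ⟨Q, hQ1, G', filter_subset _ _, ?_, ?_⟩
  · -- few labels are removed
    set Bad := (univ : Finset (Vtx n)).filter (fun α => 4 * Λ < dF F α) with hBad
    have hsub : F ⊆ G' ∪ Bad.biUnion (fun α => F.filter (fun g => Touches α g)) := by
      intro g hg
      rw [mem_union]
      by_cases h1 : dF F (Sum.inl g.1) ≤ 4 * Λ
      · by_cases h2 : dF F (Sum.inr g.2) ≤ 4 * Λ
        · exact Or.inl (mem_filter.2 ⟨hg, h1, h2⟩)
        · right
          rw [mem_biUnion]
          exact ⟨Sum.inr g.2, mem_filter.2 ⟨mem_univ _, not_le.1 h2⟩,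
            mem_filter.2 ⟨hg, touches_inr g⟩⟩
      · right
        rw [mem_biUnion]
        exact ⟨Sum.inl g.1, mem_filter.2 ⟨mem_univ _, not_le.1 h1⟩,
          mem_filter.2 ⟨hg, touches_inl g⟩⟩
    have h1 : F.card ≤ G'.card + ∑ α ∈ Bad, dF F α :=
      (card_le_card hsub).trans ((card_union_le _ _).trans
        (Nat.add_le_add_left card_biUnion_le _))
    have h2 : 4 * Λ * ∑ α ∈ Bad, dF F α ≤ Λ * F.card := by
      calc 4 * Λ * ∑ α ∈ Bad, dF F α = ∑ α ∈ Bad, 4 * Λ * dF F α := by rw [mul_sum]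
        _ ≤ ∑ α ∈ Bad, dF F α ^ 2 := by
          refine sum_le_sum (fun α hα => ?_)
          rw [pow_two]
          exact Nat.mul_le_mul_right _ (mem_filter.1 hα).2.le
        _ ≤ ∑ α : Vtx n, dF F α ^ 2 := sum_le_sum_of_subset (subset_univ _)
        _ ≤ Λ * F.card := hQ2
    have h3 : 4 * ∑ α ∈ Bad, dF F α ≤ F.card := by
      have : Λ * (4 * ∑ α ∈ Bad, dF F α) ≤ Λ * F.card := by
        calc _ = 4 * Λ * ∑ α ∈ Bad, dF F α := by ring
          _ ≤ _ := h2
      exact Nat.le_of_mul_le_mul_left this hΛ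
    have h4 : 3 * F.card ≤ 4 * G'.card := by omega
    calc 3 * (h * G.card) ≤ 3 * (4 * S * F.card) := Nat.mul_le_mul_left _ hX
      _ = 4 * S * (3 * F.card) := by ring
      _ ≤ 4 * S * (4 * G'.card) := Nat.mul_le_mul_left _ h4
      _ = 16 * S * G'.card := by ring
  · intro α
    by_cases h1 : (G'.filter (fun g => Touches α g)).Nonempty
    · obtain ⟨g, hg⟩ := h1
      obtain ⟨hg1, hg2⟩ := mem_filter.1 hg
      obtain ⟨_, hg3, hg4⟩ := mem_filter.1 hg1
      refine (dF_mono (filter_subset _ _) α).trans ?_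
      rcases hg2 with rfl | rfl
      · exact hg3
      · exact hg4
    · rw [not_nonempty_iff_eq_empty] at h1
      unfold dF
      rw [h1]
      exact Nat.zero_le _

end Pool.H54.TSG
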