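import Pool.Agent.H54.TSG.Final
import Pool.Agent.H54.TSG.Sample
import Pool.Agent.H54.TSG.Defs

/-!
Hubs: small sets of cells with known contents
(3SUM-Indexing cell probe lower bound for T probes, MP_e016b3_lc).
-/

namespace Pool.H54.TSG

open Finset Function Classical Pool.H54.TSUM

section hub

variable {S W H : ℕ}

/-- the address of probe number `t + 1` when the memory is `N` -/
def cl (P : Scheme S W) (N : Fin S → Fin W) (t z : ℕ) : Fin S := P.addr z (P.reads N z t)

/-- the first `t` probes are made in `Q` -/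
def Res (P : Scheme S W) (N : Fin S → Fin W) (Q : Finset (Fin S)) (t z : ℕ) : Prop :=
  ∀ i < t, cl P N i z ∈ Q

theorem reads_eq (P : Scheme S W) (M N : Fin S → Fin W) (Q : Finset (Fin S))
    (hMN : ∀ c ∈ Q, N c = M c) (t z : ℕ) (h : Res P M Q t z) :
    ∀ i ≤ t, P.reads N z i = P.reads M z i := by
  intro i
  induction i with
  | zero => intro _; rfl
  | succ i ih =>
    intro hi
    have ih' := ih (by omega)
    have h1 : cl P M i z ∈ Q := h i (by omega)
    show N (P.addr z (P.reads N z i)) :: P.reads N z i =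
      M (P.addr z (P.reads M z i)) :: P.reads M z i
    rw [ih']
    have h2 : N (P.addr z (P.reads M z i)) = M (P.addr z (P.reads M z i)) := hMN _ h1
    rw [h2]

theorem cl_eq (P : Scheme S W) (M N : Fin S → Fin W) (Q : Finset (Fin S))
    (hMN : ∀ c ∈ Q, N c = M c) (t z : ℕ) (h : Res P M Q t z) (i : ℕ) (hi : i ≤ t) :
    cl P N i z = cl P M i z := by
  unfold cl
  rw [reads_eq P M N Q hMN t z h i hi]

theorem res_iff (P : Scheme S W) (M N : Fin S → Fin W) (Q : Finset (Fin S))
    (hMN : ∀ c ∈ Q, N c = M c) (t z : ℕ) : Res P N Q t z ↔ Res P M Q t z := by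
  constructor
  · intro h i hi
    have h1 := cl_eq P N M Q (fun c hc => (hMN c hc).symm) t z h i (by omega)
    rw [h1]
    exact h i hi
  · intro h i hi
    rw [cl_eq P M N Q hMN t z h i (by omega)]
    exact h i hi

theorem res_mono (P : Scheme S W) (N : Fin S → Fin W) (Q Q' : Finset (Fin S)) (hQ : Q ⊆ Q')
    (t z : ℕ) (h : Res P N Q t z) : Res P N Q' t z := fun i hi => hQ (h i hi)

theorem res_succ (P : Scheme S W) (N : Fin S → Fin W) (Q : Finset (Fin S))
    (t z : ℕ) (h : Res P N Q t z) (h' : cl P N t z ∈ Q) : Res P N Q (t + 1) z := by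
  intro i hi
  rcases Nat.lt_succ_iff_lt_or_eq.1 hi with h1 | h1
  · exact h i h1
  · rw [h1]; exact h'

/-- the memory defined by a hub -/
noncomputable def hmem (θ : Fin H → Fin S × Fin W) (w₀ : Fin W) (c : Fin S) : Fin W :=
  if h : ∃ i, (θ i).1 = c then (θ h.choose).2 else w₀

/-- the cells of a hub -/
noncomputable def hset (θ : Fin H → Fin S × Fin W) : Finset (Fin S) :=
  (univ : Finset (Fin H)).image (fun i => (θ i).1)

theorem hmem_eq (θ : Fin H → Fin S × Fin W) (w₀ : Fin W) (M : Fin S → Fin W)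
    (h : ∀ i, (θ i).2 = M (θ i).1) (c : Fin S) (hc : c ∈ hset θ) : hmem θ w₀ c = M c := by
  have hex : ∃ i, (θ i).1 = c := by
    obtain ⟨i, _, hi⟩ := mem_image.1 hc
    exact ⟨i, hi⟩
  unfold hmem
  rw [dif_pos hex, h, hex.choose_spec]

theorem exists_hub (Q : Finset (Fin S)) (hQ : Q.card ≤ H) (hS : 0 < S) (M : Fin S → Fin W) :
    ∃ θ : Fin H → Fin S × Fin W, (∀ i, (θ i).2 = M (θ i).1) ∧ Q ⊆ hset θ := by
  obtain ⟨f, hf⟩ : ∃ f : Fin H → Fin S, ∀ c ∈ Q, ∃ i, f i = c := by
    refine ⟨fun i => if h : i.val < Q.toList.length then Q.toList.get ⟨i.val, h⟩ else ⟨0, hS⟩,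
      fun c hc => ?_⟩
    have h1 : c ∈ Q.toList := mem_toList.2 hc
    obtain ⟨j, hj⟩ := List.get_of_mem h1
    have hlen : Q.toList.length = Q.card := length_toList Q
    refine ⟨⟨j.val, by have := j.isLt; omega⟩, ?_⟩
    have h2 : j.val < Q.toList.length := j.isLt
    show (if h : j.val < Q.toList.length then Q.toList.get ⟨j.val, h⟩ else ⟨0, hS⟩) = c
    rw [dif_pos h2]
    exact hj
  refine ⟨fun i => (f i, M (f i)), fun i => rfl, fun c hc => ?_⟩
  obtain ⟨i, hi⟩ := hf c hc
  exact mem_image.2 ⟨i, mem_univ _, hi⟩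

end hub

section chunk2

variable {α V : Type*} [DecidableEq V]

/-- explicit chunking function -/
noncomputable def ck (E : Finset α) (p : α → V) (r : ℕ) (g : α) : V × ℕ := (p g, rk E p g / r)

theorem ck_fst (E : Finset α) (p : α → V) (r : ℕ) (g : α) : (ck E p r g).1 = p g := rfl

theorem ck_fibre (E : Finset α) (p : α → V) (r : ℕ) (hr : 0 < r) (v : V × ℕ) :
    (E.filter (fun g => ck E p r g = v)).card ≤ r := by
  have : (Finset.Ico (v.2 * r) (v.2 * r + r)).card = r := by simp
  refine le_of_le_of_eq (card_le_card_of_injOn (fun g => rk E p g) ?_ ?_) this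
  · intro g hg
    have h := (mem_filter.1 (mem_coe.1 hg)).2
    have h2 : rk E p g / r = v.2 := congrArg Prod.snd h
    refine mem_coe.2 (Finset.mem_Ico.2 ⟨?_, ?_⟩)
    · show v.2 * r ≤ rk E p g
      rw [← h2]; exact Nat.div_mul_le_self _ _
    · show rk E p g < v.2 * r + r
      rw [← h2]; exact Nat.lt_div_mul_add hr
  · intro g hg g' hg' h
    have h1 := (mem_filter.1 (mem_coe.1 hg))
    have h1' := (mem_filter.1 (mem_coe.1 hg'))
    have h3 : p g = v.1 := congrArg Prod.fst h1.2
    have h3' : p g' = v.1 := congrArg Prod.fst h1'.2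
    exact rk_inj E p g g' h1.1 h1'.1 (h3.trans h3'.symm) h

theorem ck_snd (E : Finset α) (p : α → V) (r : ℕ) (g : α) (hg : g ∈ E) :
    (ck E p r g).2 < (E.filter (fun g' => p g' = p g)).card / r + 1 := by
  show rk E p g / r < _
  rw [Nat.lt_succ_iff]
  exact Nat.div_le_div_right (rk_lt E p g hg).le

theorem ck_image (E : Finset α) (p : α → V) (r : ℕ) :
    r * (E.image (ck E p r)).card ≤ E.card + r * (E.image p).card := by
  have h1 : E.image (ck E p r) ⊆
      (E.image p).biUnion (fun v => (range ((E.filter (fun g' => p g' = v)).card / r + 1)).image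
        (fun k => (v, k))) := by
    intro q hq
    rw [mem_image] at hq
    obtain ⟨g, hg, rfl⟩ := hq
    rw [mem_biUnion]
    refine ⟨p g, mem_image_of_mem _ hg, ?_⟩
    rw [mem_image]
    exact ⟨rk E p g / r, mem_range.2 (ck_snd E p r g hg), rfl⟩
  have h2 : (E.image (ck E p r)).card ≤
      ∑ v ∈ E.image p, ((E.filter (fun g' => p g' = v)).card / r + 1) := by
    refine (card_le_card h1).trans (card_biUnion_le.trans ?_)
    refine sum_le_sum (fun v _ => ?_)
    refine card_image_le.trans ?_
    rw [card_range]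
  calc r * (E.image (ck E p r)).card
      ≤ r * ∑ v ∈ E.image p, ((E.filter (fun g' => p g' = v)).card / r + 1) :=
        Nat.mul_le_mul_left _ h2
    _ = ∑ v ∈ E.image p, (r * ((E.filter (fun g' => p g' = v)).card / r) + r) := by
        rw [mul_sum]
        refine sum_congr rfl (fun v _ => by ring)
    _ ≤ ∑ v ∈ E.image p, ((E.filter (fun g' => p g' = v)).card + r) :=
        sum_le_sum (fun v _ => Nat.add_le_add_right (Nat.mul_div_le _ _) _)
    _ = E.card + r * (E.image p).card := by
        rw [sum_add_distrib, sum_const, smul_eq_mul, mul_comm,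
          ← card_eq_sum_card_fiberwise (f := p) (fun x hx => mem_image_of_mem p hx)]

end chunk2

end Pool.H54.TSG
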