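import Pool.Agent.H54.TSG.Hub

/-!
One level of the construction of the hub
(3SUM-Indexing cell probe lower bound for T probes, MP_e016b3_lc).
-/

namespace Pool.H54.TSG

open Finset Function Classical Pool.H54.TSUM

variable {n U S W : ℕ}

/-- number of labels that touch a small set of vertices -/
theorem avoid_card (G : Finset (Label n)) (D : Finset (Vtx n)) (Y : ℕ) (hY : ∀ α, dF G α ≤ Y) :
    G.card ≤ (G.filter (fun g => Avoids D g)).card + D.card * Y := by
  have hsub : G ⊆ G.filter (fun g => Avoids D g) ∪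
      D.biUnion (fun α => G.filter (fun g => Touches α g)) := by
    intro g hg
    rw [mem_union, mem_biUnion]
    by_cases h : Avoids D g
    · exact Or.inl (mem_filter.2 ⟨hg, h⟩)
    · right
      unfold Avoids at h
      by_cases h1 : Sum.inl g.1 ∈ D
      · exact ⟨_, h1, mem_filter.2 ⟨hg, touches_inl g⟩⟩
      · by_cases h2 : Sum.inr g.2 ∈ D
        · exact ⟨_, h2, mem_filter.2 ⟨hg, touches_inr g⟩⟩
        · exact absurd ⟨h1, h2⟩ h
  refine (card_le_card hsub).trans ((card_union_le _ _).trans (Nat.add_le_add_left ?_ _))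
  exact card_biUnion_le_card_mul _ _ _ (fun α _ => hY α)

/-- size of a class of queries -/
noncomputable def csz (U : ℕ) (p : ℕ → Fin S) (c : Fin S) : ℕ :=
  ((range (2 * U)).filter (fun z => p z = c)).card

/-- heavy classes -/
noncomputable def hv (U : ℕ) (p : ℕ → Fin S) (κh : ℕ) : Finset (Fin S) :=
  univ.filter (fun c => κh < csz U p c)

theorem hv_card (U : ℕ) (p : ℕ → Fin S) (κh Hs : ℕ) (h : 2 * U < (Hs + 1) * κh) :
    (hv U p κh).card ≤ Hs := by
  by_contra hcon
  have h1 : (Hs + 1) * κh ≤ (hv U p κh).card * κh := Nat.mul_le_mul_right _ (by omega)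
  have h2 : (hv U p κh).card * κh ≤ 2 * U := by
    calc (hv U p κh).card * κh = ∑ c ∈ hv U p κh, κh := by rw [sum_const, smul_eq_mul]
      _ ≤ ∑ c ∈ hv U p κh, csz U p c :=
        sum_le_sum (fun c hc => (mem_filter.1 hc).2.le)
      _ ≤ ∑ c : Fin S, csz U p c := sum_le_sum_of_subset (subset_univ _)
      _ = (range (2 * U)).card :=
        (card_eq_sum_card_fiberwise (f := p) (fun x _ => mem_coe.2 (mem_univ _))).symm
      _ = 2 * U := card_range _
  omega

/-- One level of the construction. -/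
theorem level_step (P : Scheme S W) (A : Arr n U) (M N : Fin S → Fin W) (t : ℕ)
    (Q : Finset (Fin S)) (hMN : ∀ c ∈ Q, N c = M c) (G : Finset (Label n))
    (hG : ∀ g ∈ G, Res P M Q t (zv A g)) (D : Finset (Vtx n)) (m₀ rv κh τ Y h Λ Hs : ℕ)
    (hgood : ∀ (α : Vtx n) (v : Fin S × ℕ),
      ((univ : Finset (Label n)).filter (fun g => Avoids D g ∧ Touches α g ∧
        zv A g ∈ (range (2 * U)).filter
          (fun z => ck (range (2 * U)) (cl P N t) rv z = v))).card ≤ m₀)
    (hDG : 2 * (D.card * Y) ≤ G.card) (hY : ∀ α, dF G α ≤ Y)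
    (hτ : (κh / rv + 1) * m₀ ≤ τ) (hHs : 2 * U < (Hs + 1) * κh) (hhHs : h ≤ Hs)
    (hS : 0 < S) (hh : h ≤ S) (hΛ : 0 < Λ) (hΛ1 : 4 * Y * h ≤ Λ * S) (hΛ2 : 8 * τ ≤ Λ) :
    ∃ Q' : Finset (Fin S), Q'.card ≤ Hs ∧ ∃ G' ⊆ G,
      (∀ g ∈ G', Res P M (Q ∪ Q') (t + 1) (zv A g)) ∧
      ((G.card ≤ 4 * G'.card ∧ ∀ α, dF G' α ≤ Y) ∨
       (3 * (h * G.card) ≤ 64 * S * G'.card ∧ ∀ α, dF G' α ≤ 4 * Λ)) := by
  set κ : Label n → Fin S := fun g => cl P N t (zv A g) with hκ
  have hκM : ∀ g ∈ G, κ g = cl P M t (zv A g) := fun g hg =>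
    cl_eq P M N Q hMN t (zv A g) (hG g hg) t le_rfl
  have hres : ∀ (Q' : Finset (Fin S)), ∀ g ∈ G, κ g ∈ Q' →
      Res P M (Q ∪ Q') (t + 1) (zv A g) := by
    intro Q' g hg hgQ
    refine res_succ P M (Q ∪ Q') t _ (res_mono P M Q _ subset_union_left t _ (hG g hg)) ?_
    rw [← hκM g hg]
    exact mem_union_right _ hgQ
  set G₁ := G.filter (fun g => Avoids D g) with hG₁
  have hG₁G : G₁ ⊆ G := filter_subset _ _
  have hcard1 := avoid_card G D Y hY
  rw [← hG₁] at hcard1
  have hG₁2 : G.card ≤ 2 * G₁.card := by omega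
  set Hv := hv U (cl P N t) κh with hHv
  set G₂ := G₁.filter (fun g => κ g ∈ Hv) with hG₂
  by_cases hcase : G₁.card ≤ 2 * G₂.card
  · refine ⟨Hv, hv_card U _ κh Hs hHs, G₂, (filter_subset _ _).trans hG₁G, ?_, Or.inl ⟨by omega, ?_⟩⟩
    · intro g hg
      obtain ⟨h1, h2⟩ := mem_filter.1 hg
      exact hres Hv g (hG₁G h1) h2
    · intro α
      exact (dF_mono ((filter_subset _ _).trans hG₁G) α).trans (hY α)
  · set G₃ := G₁.filter (fun g => ¬ κ g ∈ Hv) with hG₃
    have hsplit : G₂.card + G₃.card = G₁.card := card_filter_add_card_filter_not _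
    have hG₃2 : G.card ≤ 4 * G₃.card := by omega
    have hG₃G : G₃ ⊆ G := (filter_subset _ _).trans hG₁G
    have hτ' : ∀ α c, dF (cls G₃ κ {c}) α ≤ τ := by
      intro α c
      by_cases hc : c ∈ Hv
      · have : cls G₃ κ {c} = ∅ := by
          unfold cls
          rw [filter_eq_empty_iff]
          intro g hg h1
          rw [mem_singleton] at h1
          have h2 := (mem_filter.1 hg).2
          rw [h1] at h2
          exact h2 hc
        rw [this]
        exact Nat.zero_le _
      · have hlight : csz U (cl P N t) c ≤ κh := by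
          by_contra h1
          exact hc (mem_filter.2 ⟨mem_univ _, not_le.1 h1⟩)
        have hsub : (cls G₃ κ {c}).filter (fun g => Touches α g) ⊆
            (range (κh / rv + 1)).biUnion (fun j =>
              (univ : Finset (Label n)).filter (fun g => Avoids D g ∧ Touches α g ∧
              zv A g ∈ (range (2 * U)).filter
                (fun z => ck (range (2 * U)) (cl P N t) rv z = (c, j)))) := by
          intro g hg
          obtain ⟨h1, h2⟩ := mem_filter.1 hg
          obtain ⟨h3, h4⟩ := mem_filter.1 h1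
          rw [mem_singleton] at h4
          have h5 := (mem_filter.1 (mem_filter.1 h3).1).2
          have hz : zv A g ∈ range (2 * U) := mem_range.2 (zv_lt A g)
          have h6 := ck_snd (range (2 * U)) (cl P N t) rv (zv A g) hz
          rw [mem_biUnion]
          refine ⟨(ck (range (2 * U)) (cl P N t) rv (zv A g)).2, ?_, ?_⟩
          · rw [mem_range]
            refine lt_of_lt_of_le h6 (Nat.succ_le_succ (Nat.div_le_div_right ?_))
            have h7 : cl P N t (zv A g) = c := h4
            rw [h7]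
            exact hlight
          · refine mem_filter.2 ⟨mem_univ _, h5, h2, mem_filter.2 ⟨hz, ?_⟩⟩
            refine Prod.ext ?_ rfl
            exact h4
        unfold dF
        refine (card_le_card hsub).trans ((card_biUnion_le_card_mul _ _ m₀
          (fun j _ => hgood α (c, j))).trans ?_)
        rw [card_range]
        exact hτ
    obtain ⟨Q', hQ', G', hG', hX, hdeg⟩ := sample G₃ κ Y τ Λ h
      (fun α => (dF_mono hG₃G α).trans (hY α)) hτ' hS hh hΛ hΛ1 hΛ2
    have hG'₃ : G' ⊆ G₃ := hG'.trans (filter_subset _ _)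
    refine ⟨Q', hQ'.trans hhHs, G', hG'₃.trans hG₃G, ?_, Or.inr ⟨?_, hdeg⟩⟩
    · intro g hg
      exact hres Q' g (hG₃G (hG'₃ hg)) (mem_filter.1 (hG' hg)).2
    · calc 3 * (h * G.card) ≤ 3 * (h * (4 * G₃.card)) :=
            Nat.mul_le_mul_left _ (Nat.mul_le_mul_left _ hG₃2)
        _ = 4 * (3 * (h * G₃.card)) := by ring
        _ ≤ 4 * (16 * S * G'.card) := Nat.mul_le_mul_left _ hX
        _ = 64 * S * G'.card := by ring

end Pool.H54.TSG
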