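import Pool.Agent.H54.TSUM.Run

/-!
Independence of events with disjoint supports and the packing lemma
(3SUM-Indexing cell probe lower bound for T probes, MP_e016b3_lc).
-/

namespace Pool.H54.TSG

open Finset Function Classical Pool.H54.TSUM

section indep

variable {V : Type*} [Fintype V] [DecidableEq V] {U : ℕ}

/-- combine two arrays -/
noncomputable def mix (D : Finset V) (A B : V → Fin U) : V → Fin U :=
  fun v => if v ∈ D then A v else B v

theorem indep (P Q : (V → Fin U) → Prop) (D E : Finset V)
    (hP : ∀ A B, (∀ v ∈ D, A v = B v) → P A → P B)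
    (hQ : ∀ A B, (∀ v ∈ E, A v = B v) → Q A → Q B) (hDE : Disjoint D E) :
    ((univ : Finset (V → Fin U)).filter (fun A => P A ∧ Q A)).card * U ^ (Fintype.card V) ≤
      ((univ : Finset (V → Fin U)).filter (fun A => P A)).card *
        ((univ : Finset (V → Fin U)).filter (fun A => Q A)).card := by
  have hu : (univ : Finset (V → Fin U)).card = U ^ (Fintype.card V) := by
    rw [card_univ, Fintype.card_fun, Fintype.card_fin]
  rw [← hu, ← card_product, ← card_product]
  refine card_le_card_of_injOn (fun p => (mix D p.1 p.2, mix D p.2 p.1)) ?_ ?_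
  · intro p hp
    have hp1 := (mem_filter.1 (mem_product.1 (mem_coe.1 hp)).1).2
    refine mem_coe.2 (mem_product.2 ⟨mem_filter.2 ⟨mem_univ _, ?_⟩,
      mem_filter.2 ⟨mem_univ _, ?_⟩⟩)
    · refine hP p.1 _ (fun v hv => ?_) hp1.1
      show p.1 v = mix D p.1 p.2 v
      unfold mix
      rw [if_pos hv]
    · refine hQ p.1 _ (fun v hv => ?_) hp1.2
      show p.1 v = mix D p.2 p.1 v
      unfold mix
      rw [if_neg (fun hc => (disjoint_left.1 hDE) hc hv)]
  · intro p _ p' _ h
    have h1 : mix D p.1 p.2 = mix D p'.1 p'.2 := congrArg Prod.fst h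
    have h2 : mix D p.2 p.1 = mix D p'.2 p'.1 := congrArg Prod.snd h
    refine Prod.ext ?_ ?_
    · funext v
      by_cases hv : v ∈ D
      · have := congrFun h1 v
        unfold mix at this
        rwa [if_pos hv, if_pos hv] at this
      · have := congrFun h2 v
        unfold mix at this
        rwa [if_neg hv, if_neg hv] at this
    · funext v
      by_cases hv : v ∈ D
      · have := congrFun h2 v
        unfold mix at this
        rwa [if_pos hv, if_pos hv] at this
      · have := congrFun h1 v
        unfold mix at this
        rwa [if_neg hv, if_neg hv] at this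

end indep

section pack

variable {n U : ℕ} {ι : Type*}

/-- next index: a member of the family whose support is disjoint from the previous ones -/
noncomputable def pext (I : Finset ι) (supp : ι → Finset (Vtx n)) (l : List ι) : Finset ι :=
  I.filter (fun i => ∀ j ∈ l, Disjoint (supp i) (supp j))

/-- `A` is good for the family: some small set of vertices meets the supports of all
members of the family that occur at `A` -/
def GoodFor (I : Finset ι) (supp : ι → Finset (Vtx n)) (ev : ι → Arr n U → Prop) (B : ℕ)
    (A : Arr n U) : Prop :=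
  ∃ D : Finset (Vtx n), D.card ≤ B ∧ ∀ i ∈ I, ev i A → ¬ Disjoint (supp i) D

theorem pack_alt (I : Finset ι) (supp : ι → Finset (Vtx n)) (ev : ι → Arr n U → Prop) (v : ℕ)
    (hv : ∀ i ∈ I, (supp i).card ≤ v) (A : Arr n U) (k : ℕ) :
    (∃ l ∈ grow (pext I supp) k, ∀ i ∈ l, ev i A) ∨ GoodFor I supp ev (k * v) A := by
  induction k with
  | zero =>
    left
    refine ⟨[], mem_singleton.2 rfl, fun i hi => absurd hi List.not_mem_nil⟩
  | succ k ih =>
    rcases ih with ⟨l, hl, hev⟩ | ⟨D, hD, hD2⟩
    · by_cases h : ∃ i ∈ I, ev i A ∧ ∀ j ∈ l, Disjoint (supp i) (supp j)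
      · obtain ⟨i, hi, hevi, hdis⟩ := h
        left
        refine ⟨i :: l, (mem_grow_succ _ _ _ _).2 ⟨hl, mem_filter.2 ⟨hi, hdis⟩⟩, ?_⟩
        intro j hj
        rcases List.mem_cons.1 hj with rfl | hj'
        · exact hevi
        · exact hev j hj'
      · right
        push Not at h
        refine ⟨l.toFinset.biUnion supp, ?_, ?_⟩
        · have hlen := length_of_mem_grow _ _ _ hl
          have hIl : ∀ j ∈ l, j ∈ I := by
            have : ∀ (k : ℕ) (l : List ι), l ∈ grow (pext I supp) k → ∀ j ∈ l, j ∈ I := by
              intro k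
              induction k with
              | zero =>
                intro l hl j hj
                have : l ∈ ({[]} : Finset (List ι)) := hl
                rw [mem_singleton] at this
                rw [this] at hj
                exact absurd hj List.not_mem_nil
              | succ k ih =>
                intro l hl j hj
                obtain ⟨g, l', rfl, h1, h2⟩ := exists_of_mem_grow_succ _ k l hl
                rcases List.mem_cons.1 hj with rfl | hj'
                · exact (mem_filter.1 h2).1
                · exact ih l' h1 j hj'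
            exact this k l hl
          refine (card_biUnion_le_card_mul _ _ v
            (fun j hj => hv j (hIl j (List.mem_toFinset.1 hj)))).trans ?_
          refine Nat.mul_le_mul_right _ ((List.toFinset_card_le _).trans ?_)
          omega
        · intro i hi hevi hdis
          obtain ⟨j, hj, hnd⟩ := h i hi hevi
          apply hnd
          exact disjoint_of_subset_right
            (subset_biUnion_of_mem supp (List.mem_toFinset.2 hj)) hdis
    · right
      exact ⟨D, hD.trans (Nat.mul_le_mul_right _ (Nat.le_succ k)), hD2⟩

/-- all members of the list occur -/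
def AllEv (ev : ι → Arr n U → Prop) (l : List ι) (A : Arr n U) : Prop := ∀ i ∈ l, ev i A

/-- number of arrays at which all members of the list occur -/
noncomputable def cnt (ev : ι → Arr n U → Prop) (l : List ι) : ℕ :=
  ((univ : Finset (Arr n U)).filter (fun A => AllEv ev l A)).card

theorem pack_count (I : Finset ι) (supp : ι → Finset (Vtx n)) (ev : ι → Arr n U → Prop) (N : ℕ)
    (hU : 0 < U)
    (dep : ∀ i, ∀ A B : Arr n U, (∀ v ∈ supp i, A v = B v) → ev i A → ev i B)
    (hsum : N * ∑ i ∈ I, ((univ : Finset (Arr n U)).filter (fun A => ev i A)).card ≤ U ^ (2 * n))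
    (k : ℕ) : N ^ k * ∑ l ∈ grow (pext I supp) k, cnt ev l ≤ U ^ (2 * n) := by
  have hcard : U ^ (2 * n) = U ^ Fintype.card (Vtx n) := by
    rw [Fintype.card_sum, Fintype.card_fin, two_mul]
  have hpos : 0 < U ^ (2 * n) := Nat.pow_pos hU
  induction k with
  | zero =>
    have : grow (pext I supp) 0 = ({[]} : Finset (List ι)) := rfl
    rw [this, sum_singleton, pow_zero, one_mul]
    unfold cnt
    refine (card_filter_le _ _).trans ?_
    rw [card_univ, Fintype.card_fun, Fintype.card_fin, hcard]
  | succ k ih =>
    rw [sum_grow_succ]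
    have hstep : ∀ l ∈ grow (pext I supp) k,
        (N * ∑ i ∈ pext I supp l, cnt ev (i :: l)) ≤ cnt ev l := by
      intro l _
      have h1 : ∀ i ∈ pext I supp l, cnt ev (i :: l) * U ^ (2 * n) ≤
          ((univ : Finset (Arr n U)).filter (fun A => ev i A)).card * cnt ev l := by
        intro i hi
        have hdis := (mem_filter.1 hi).2
        have h2 := indep (U := U) (fun A => ev i A) (fun A => AllEv ev l A) (supp i)
          (l.toFinset.biUnion supp) (dep i)
          (fun A B hAB h j hj => dep j A B (fun v hv => hAB v (mem_biUnion.2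
            ⟨j, List.mem_toFinset.2 hj, hv⟩)) (h j hj))
          (by
            rw [disjoint_biUnion_right]
            intro j hj
            exact hdis j (List.mem_toFinset.1 hj))
        rw [hcard]
        have e1 : cnt ev (i :: l) = ((univ : Finset (Arr n U)).filter
            (fun A => ev i A ∧ AllEv ev l A)).card := by
          unfold cnt
          congr 1
          ext A
          rw [mem_filter, mem_filter]
          unfold AllEv
          simp only [List.forall_mem_cons]
        rw [e1]
        exact h2
      have h2 : (N * ∑ i ∈ pext I supp l, cnt ev (i :: l)) * U ^ (2 * n) ≤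
          cnt ev l * U ^ (2 * n) := by
        calc (N * ∑ i ∈ pext I supp l, cnt ev (i :: l)) * U ^ (2 * n)
            = N * ∑ i ∈ pext I supp l, cnt ev (i :: l) * U ^ (2 * n) := by
              rw [mul_assoc, sum_mul]
          _ ≤ N * ∑ i ∈ pext I supp l,
              ((univ : Finset (Arr n U)).filter (fun A => ev i A)).card * cnt ev l :=
              Nat.mul_le_mul_left _ (sum_le_sum h1)
          _ ≤ N * ∑ i ∈ I,
              ((univ : Finset (Arr n U)).filter (fun A => ev i A)).card * cnt ev l :=
              Nat.mul_le_mul_left _ (sum_le_sum_of_subset (filter_subset _ _))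
          _ = (N * ∑ i ∈ I, ((univ : Finset (Arr n U)).filter (fun A => ev i A)).card) *
              cnt ev l := by rw [← sum_mul, mul_assoc]
          _ ≤ U ^ (2 * n) * cnt ev l := Nat.mul_le_mul_right _ hsum
          _ = cnt ev l * U ^ (2 * n) := mul_comm _ _
      exact Nat.le_of_mul_le_mul_right h2 hpos
    calc N ^ (k + 1) * ∑ l ∈ grow (pext I supp) k, ∑ i ∈ pext I supp l, cnt ev (i :: l)
        = N ^ k * ∑ l ∈ grow (pext I supp) k, N * ∑ i ∈ pext I supp l, cnt ev (i :: l) := by
          rw [pow_succ, mul_assoc, mul_sum]
      _ ≤ N ^ k * ∑ l ∈ grow (pext I supp) k, cnt ev l :=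
          Nat.mul_le_mul_left _ (sum_le_sum hstep)
      _ ≤ U ^ (2 * n) := ih

/-- packing lemma -/
theorem pack (I : Finset ι) (supp : ι → Finset (Vtx n)) (ev : ι → Arr n U → Prop) (N v : ℕ)
    (hU : 0 < U) (hv : ∀ i ∈ I, (supp i).card ≤ v)
    (dep : ∀ i, ∀ A B : Arr n U, (∀ v ∈ supp i, A v = B v) → ev i A → ev i B)
    (hsum : N * ∑ i ∈ I, ((univ : Finset (Arr n U)).filter (fun A => ev i A)).card ≤ U ^ (2 * n))
    (k : ℕ) : N ^ k * ((univ : Finset (Arr n U)).filter
      (fun A => ¬ GoodFor I supp ev (k * v) A)).card ≤ U ^ (2 * n) := by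
  refine le_trans (Nat.mul_le_mul_left _ ?_) (pack_count I supp ev N hU dep hsum k)
  have hsub : (univ : Finset (Arr n U)).filter (fun A => ¬ GoodFor I supp ev (k * v) A) ⊆
      (grow (pext I supp) k).biUnion
        (fun l => (univ : Finset (Arr n U)).filter (fun A => AllEv ev l A)) := by
    intro A hA
    rcases pack_alt I supp ev v hv A k with ⟨l, hl, h⟩ | h
    · rw [mem_biUnion]
      exact ⟨l, hl, mem_filter.2 ⟨mem_univ _, h⟩⟩
    · exact absurd h (mem_filter.1 hA).2
  exact (card_le_card hsub).trans card_biUnion_le

end pack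

end Pool.H54.TSG
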