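import Pool.Agent.H54.TSG.CoreH
import Pool.Agent.H54.TSUM.Params

/-!
Choice of parameters for the lower bound for `T` adaptive probes
(3SUM-Indexing cell probe lower bound for T probes, MP_e016b3_lc).
-/

namespace Pool.H54.TSG

open Finset Function Pool.H54.TSUM

/-- the numerical estimate for the configurations -/
theorem num_F (b κ C p n S W U K : ℕ) (hp : 0 < p) (hb : 36 ≤ b)
    (hn : n = b ^ κ) (hSW : S * W ≤ U * b ^ (2 * κ + C)) (hK : b ^ (14 * κ + C + 2) ≤ K)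
    (hK1 : K ^ (24 * p) ≤ U) :
    b * ((((n ^ 2) ^ (4 * p)) ^ 3 * (9 * (2 * n) ^ 2)) *
      ((S * W) * (K ^ (4 * p) * (K ^ (4 * p) * (K ^ (4 * p) * (K ^ (4 * p) * (K ^ (4 * p) *
        (n ^ 2 * n ^ 2)))))))) ≤ U ^ 2 := by
  have hbpos : 0 < b := by omega
  have hK4 : 36 * b ^ (24 * p * κ + 8 * κ + C + 1) ≤ K ^ (4 * p) := by
    calc 36 * b ^ (24 * p * κ + 8 * κ + C + 1) ≤ b * b ^ (24 * p * κ + 8 * κ + C + 1) :=
          Nat.mul_le_mul_right _ hb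
      _ = b ^ (24 * p * κ + 8 * κ + C + 2) := by ring
      _ ≤ b ^ ((14 * κ + C + 2) * (4 * p)) := by
          refine Nat.pow_le_pow_right hbpos ?_
          have h1 : κ ≤ κ * p := Nat.le_mul_of_pos_right _ hp
          have h2 : C ≤ C * p := Nat.le_mul_of_pos_right _ hp
          nlinarith
      _ = (b ^ (14 * κ + C + 2)) ^ (4 * p) := by rw [← pow_mul]
      _ ≤ K ^ (4 * p) := Nat.pow_le_pow_left hK _
  have hK24 : K ^ (24 * p) = K ^ (4 * p) * (K ^ (4 * p) * (K ^ (4 * p) * (K ^ (4 * p) *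
      (K ^ (4 * p) * K ^ (4 * p))))) := by
    rw [← pow_add, ← pow_add, ← pow_add, ← pow_add, ← pow_add]; congr 1; omega
  have hn24 : ((n ^ 2) ^ (4 * p)) ^ 3 = b ^ (24 * p * κ) := by
    rw [hn, ← pow_mul, ← pow_mul, ← pow_mul]; congr 1; ring
  have hn2 : n ^ 2 = b ^ (2 * κ) := by rw [hn, ← pow_mul]; congr 1; ring
  have hcomb : b ^ (24 * p * κ + 8 * κ + C + 1) =
      b ^ (24 * p * κ) * (b ^ (2 * κ)) ^ 3 * b ^ (2 * κ + C) * b := by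
    rw [← pow_mul, ← pow_add, ← pow_add, ← pow_succ]; congr 1; ring
  have h9 : 9 * (2 * n) ^ 2 = 36 * b ^ (2 * κ) := by
    rw [← hn2]; ring
  rw [hn24, h9, hn2]
  rw [hcomb] at hK4
  rw [hK24] at hK1
  generalize K ^ (4 * p) = κ' at *
  generalize b ^ (24 * p * κ) = ν at *
  generalize b ^ (2 * κ + C) = μ at *
  generalize b ^ (2 * κ) = y at *
  calc b * ((ν * (36 * y)) * ((S * W) * (κ' * (κ' * (κ' * (κ' * (κ' * (y * y))))))))
      ≤ b * ((ν * (36 * y)) * ((U * μ) * (κ' * (κ' * (κ' * (κ' * (κ' * (y * y)))))))) :=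
        Nat.mul_le_mul_left _ (Nat.mul_le_mul_left _ (Nat.mul_le_mul_right _ hSW))
    _ = U * (κ' * (κ' * (κ' * (κ' * (κ' * (36 * (ν * y ^ 3 * μ * b))))))) := by ring
    _ ≤ U * (κ' * (κ' * (κ' * (κ' * (κ' * κ'))))) :=
        Nat.mul_le_mul_left _ (Nat.mul_le_mul_left _ (Nat.mul_le_mul_left _
          (Nat.mul_le_mul_left _ (Nat.mul_le_mul_left _ (Nat.mul_le_mul_left _ hK4)))))
    _ ≤ U * U := Nat.mul_le_mul_left _ hK1
    _ = U ^ 2 := (pow_two U).symm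

/-- the numerical estimate for the heavy queries -/
theorem num_b (b κ C q n S W U K : ℕ) (hn : n = b ^ κ)
    (hSW : S * W ≤ U * b ^ (2 * κ + C)) (hKq : U ^ 2 ≤ (K + 1) ^ q)
    (hU : b ^ (1 + (2 * κ + C) * (q + 1) + 4 * κ * q) ≤ U) :
    b * ((S * W) * ((n ^ 2) ^ q * (n ^ 2 * (S * W)) ^ q)) ≤ U ^ q * (K + 1) ^ q := by
  have hn2 : n ^ 2 = b ^ (2 * κ) := by rw [hn, ← pow_mul]; congr 1; ring
  calc b * ((S * W) * ((n ^ 2) ^ q * (n ^ 2 * (S * W)) ^ q))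
      ≤ b * ((U * b ^ (2 * κ + C)) * ((n ^ 2) ^ q * (n ^ 2 * (U * b ^ (2 * κ + C))) ^ q)) := by
        refine Nat.mul_le_mul_left _ (Nat.mul_le_mul hSW (Nat.mul_le_mul_left _ ?_))
        exact Nat.pow_le_pow_left (Nat.mul_le_mul_left _ hSW) q
    _ = U ^ q * (U * (b * (b ^ (2 * κ + C) * (b ^ (2 * κ * q) * (b ^ (2 * κ * q) *
          b ^ ((2 * κ + C) * q)))))) := by
        rw [hn2, mul_pow, mul_pow, ← pow_mul, ← pow_mul]; ring
    _ = U ^ q * (U * b ^ (1 + (2 * κ + C) * (q + 1) + 4 * κ * q)) := by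
        rw [← pow_add, ← pow_add, ← pow_add, ← pow_succ']; congr 3; ring
    _ ≤ U ^ q * (U * U) := Nat.mul_le_mul_left _ (Nat.mul_le_mul_left _ hU)
    _ = U ^ q * U ^ 2 := by rw [pow_two]
    _ ≤ U ^ q * (K + 1) ^ q := Nat.mul_le_mul_left _ hKq

theorem main_b (e x C : ℕ) (hx : 3 ≤ x) : ∃ c₀ : ℕ, ∀ c₁ : ℕ, ∃ b₀ : ℕ, ∀ b U W n S : ℕ,
    b₀ ≤ b → b ^ c₀ ≤ U → (1 ≤ e → U ≤ b ^ c₁) → W ≤ U * b ^ C → 0 < W →
    n = b ^ ((e + 1) * x) → S = b ^ ((e + 1) * x - 1) * b ^ x →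
    ∀ P : Scheme S W,
    (∀ A : Arr n U, ∃ M, CorrectT P (e + 2) A M) → False := by
  obtain ⟨κ, hκ⟩ : ∃ κ, κ = (e + 1) * x := ⟨_, rfl⟩
  rw [← hκ]
  have hκx : κ = e * x + x := by rw [hκ]; ring
  have hκ3 : 3 ≤ κ := by rw [hκx]; omega
  clear hκ
  obtain ⟨p, hp⟩ : ∃ p, p = 6 * κ + 1 := ⟨_, rfl⟩
  obtain ⟨q, hq⟩ : ∃ q, q = 48 * p := ⟨_, rfl⟩
  obtain ⟨m₀, hm₀⟩ : ∃ m₀, m₀ = 3 * κ + 2 := ⟨_, rfl⟩
  obtain ⟨a, ha⟩ : ∃ a, a = 2 * 22 ^ e := ⟨_, rfl⟩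
  obtain ⟨C₂, hC₂⟩ : ∃ C₂, C₂ = 2 * (12 * p) * m₀ + (12 * p) ^ 2 + 1 := ⟨_, rfl⟩
  obtain ⟨y1, hy1⟩ : ∃ y, y = 24 * p * (14 * κ + C + 2) := ⟨_, rfl⟩
  obtain ⟨y2, hy2⟩ : ∃ y, y = 1 + (2 * κ + C) * (q + 1) + 4 * κ * q := ⟨_, rfl⟩
  obtain ⟨c₀, hc₀⟩ : ∃ c₀, c₀ = y1 + y2 + (κ + 1) := ⟨_, rfl⟩
  refine ⟨c₀, fun c₁ => ?_⟩
  obtain ⟨c₃, hc₃⟩ : ∃ c₃, c₃ = 2 * κ + c₁ + C := ⟨_, rfl⟩
  obtain ⟨z1, hz1⟩ : ∃ z, z = (2 * a) ^ p * ((80 * C₂) ^ (12 * p) * 216) := ⟨_, rfl⟩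
  obtain ⟨z2, hz2⟩ : ∃ z, z = a * (4 * (q - 1) ^ 2 + 40) := ⟨_, rfl⟩
  obtain ⟨z3, hz3⟩ : ∃ z, z = 80 * m₀ * 22 ^ e := ⟨_, rfl⟩
  obtain ⟨z4, hz4⟩ : ∃ z, z = 8 * (96 * p) * 400 ^ e * (4 * e * c₃ + 1) := ⟨_, rfl⟩
  refine ⟨36 + (e + 5) + (z1 + 1) + z2 + z3 + z4, ?_⟩
  intro b U W n S hb hU hU1 hW hWpos hn hS P hP
  have hapos : 0 < a := by rw [ha]; positivity
  have hb1 : 36 ≤ b := by omega
  have hb2 : e + 4 < b := by omega
  have hb3 : z1 < b := by omega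
  have hb4 : z2 ≤ b := by omega
  have hb5 : z3 ≤ b := by omega
  have hb6 : z4 ≤ b := by omega
  clear hb
  have hbpos : 0 < b := by omega
  have hppos : 0 < p := by omega
  have hm₀pos : 0 < m₀ := by omega
  -- the quantities
  obtain ⟨h, hh⟩ : ∃ h, h = b ^ (κ - 1) := ⟨_, rfl⟩
  obtain ⟨β, hβ⟩ : ∃ β, β = b ^ x := ⟨_, rfl⟩
  have hSh : S = h * β := by rw [hS, hh, hβ]
  have hnh : n = h * b := by
    rw [hn, hh, ← pow_succ]; congr 1; omega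
  have hhpos : 0 < h := hh ▸ Nat.pow_pos hbpos
  have hβpos : 0 < β := hβ ▸ Nat.pow_pos hbpos
  have hSpos : 0 < S := hSh ▸ Nat.mul_pos hhpos hβpos
  have hnpos : 0 < n := hn ▸ Nat.pow_pos hbpos
  have hUn : ∀ y, y ≤ c₀ → b ^ y ≤ U := fun y hy => (Nat.pow_le_pow_right hbpos hy).trans hU
  have hUpos : 0 < U := lt_of_lt_of_le (Nat.pow_pos hbpos) hU
  have hS2 : S ≤ b ^ (2 * κ) := by
    rw [hS, ← pow_add]
    exact Nat.pow_le_pow_right hbpos (by omega)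
  have hSW : S * W ≤ U * b ^ (2 * κ + C) := by
    calc S * W ≤ b ^ (2 * κ) * (U * b ^ C) := Nat.mul_le_mul hS2 hW
      _ = U * b ^ (2 * κ + C) := by rw [pow_add]; ring
  -- the root of U
  obtain ⟨K, hK1, hK2⟩ := exists_root (24 * p) (by omega) U
  have hKb : b ^ (14 * κ + C + 2) ≤ K := by
    have h1 : (b ^ (14 * κ + C + 2)) ^ (24 * p) < (K + 1) ^ (24 * p) := by
      calc (b ^ (14 * κ + C + 2)) ^ (24 * p) = b ^ y1 := by
            rw [← pow_mul, hy1]; congr 1; ring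
        _ ≤ U := hUn _ (by omega)
        _ < (K + 1) ^ (24 * p) := hK2
    exact Nat.lt_succ_iff.1 (lt_of_pow_lt_pow_left₀ _ (Nat.zero_le _) h1)
  have hKpos : 0 < K := lt_of_lt_of_le (Nat.pow_pos hbpos) hKb
  have hKq : U ^ 2 ≤ (K + 1) ^ q := by
    calc U ^ 2 ≤ ((K + 1) ^ (24 * p)) ^ 2 := Nat.pow_le_pow_left hK2.le 2
      _ = (K + 1) ^ q := by rw [← pow_mul, hq]; congr 1; omega
  have hNb := num_b b κ C q n S W U K hn hSW hKq (hUn _ (by omega))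
  have hNF := num_F b κ C p n S W U K hppos hb1 hn hSW hKb hK1
  clear hKb hKq hK1 hK2
  -- virtual blocks
  obtain ⟨rv, hrv⟩ : ∃ rv, rv = U / b ^ (κ + 1) := ⟨_, rfl⟩
  have hbκ : 0 < b ^ (κ + 1) := Nat.pow_pos hbpos
  have hrvpos : 0 < rv := hrv ▸ Nat.div_pos (hUn _ (by omega)) hbκ
  have hrv1 : rv * b ^ (κ + 1) ≤ U := hrv ▸ Nat.div_mul_le_self _ _
  have hrv2 : U < 2 * rv * b ^ (κ + 1) := by
    have h1 := Nat.lt_div_mul_add (a := U) hbκ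
    rw [← hrv] at h1
    have h2 : b ^ (κ + 1) ≤ rv * b ^ (κ + 1) := Nat.le_mul_of_pos_left _ hrvpos
    have h3 : 2 * rv * b ^ (κ + 1) = rv * b ^ (κ + 1) + rv * b ^ (κ + 1) := by ring
    rw [h3]
    exact lt_of_lt_of_le h1 (Nat.add_le_add_left h2 _)
  have hblocks : 2 * U ≤ rv * (4 * S) := by
    have h1 : b ^ (κ + 1) ≤ S := by
      rw [hS, ← pow_add]
      exact Nat.pow_le_pow_right hbpos (by omega)
    calc 2 * U ≤ 2 * (2 * rv * b ^ (κ + 1)) := Nat.mul_le_mul_left _ hrv2.le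
      _ ≤ 2 * (2 * rv * S) := Nat.mul_le_mul_left _ (Nat.mul_le_mul_left _ h1)
      _ = rv * (4 * S) := by ring
  -- heavy classes
  obtain ⟨κh, hκh⟩ : ∃ κh, κh = U / h := ⟨_, rfl⟩
  have hhU : h ≤ U := by rw [hh]; exact hUn _ (by omega)
  have hκhpos : 0 < κh := hκh ▸ Nat.div_pos hhU hhpos
  have hκh1 : κh * h ≤ U := hκh ▸ Nat.div_mul_le_self _ _
  have hκh2 : U < 2 * κh * h := by
    have h1 := Nat.lt_div_mul_add (a := U) hhpos
    rw [← hκh] at h1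
    have h2 : h ≤ κh * h := Nat.le_mul_of_pos_left _ hκhpos
    have h3 : 2 * κh * h = κh * h + κh * h := by ring
    rw [h3]
    exact lt_of_lt_of_le h1 (Nat.add_le_add_left h2 _)
  have hHs : 2 * U < (4 * h + 1) * κh := by
    calc 2 * U < 2 * (2 * κh * h) := Nat.mul_lt_mul_of_pos_left hκh2 (by norm_num)
      _ ≤ 2 * (2 * κh * h) + κh := Nat.le_add_right _ _
      _ = (4 * h + 1) * κh := by ring
  have hτ : (κh / rv + 1) * m₀ ≤ 2 * b ^ 2 * m₀ := by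
    refine Nat.mul_le_mul_right _ ?_
    have h1 : κh < (2 * b ^ 2) * rv := by
      have h2 : κh * h < ((2 * b ^ 2) * rv) * h := by
        calc κh * h ≤ U := hκh1
          _ < 2 * rv * b ^ (κ + 1) := hrv2
          _ = ((2 * b ^ 2) * rv) * h := by
            have h3 : b ^ (κ + 1) = b ^ 2 * h := by
              rw [hh, ← pow_add]; congr 1; omega
            rw [h3]; ring
      exact Nat.lt_of_mul_lt_mul_right h2
    exact Nat.succ_le_of_lt ((Nat.div_lt_iff_lt_mul hrvpos).2 h1)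
  -- union bound
  obtain ⟨H, hH⟩ : ∃ H, H = e * (4 * h) := ⟨_, rfl⟩
  obtain ⟨k, hk⟩ : ∃ k, k = H * c₃ + 1 := ⟨_, rfl⟩
  have hunion : (S * W) ^ H * (e + 4) < b ^ k := by
    by_cases he : 1 ≤ e
    · have h1 : S * W ≤ b ^ c₃ := by
        calc S * W ≤ U * b ^ (2 * κ + C) := hSW
          _ ≤ b ^ c₁ * b ^ (2 * κ + C) := Nat.mul_le_mul_right _ (hU1 he)
          _ = b ^ c₃ := by rw [← pow_add, hc₃]; congr 1; ring
      calc (S * W) ^ H * (e + 4) < (S * W) ^ H * b :=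
            Nat.mul_lt_mul_of_pos_left hb2 (Nat.pow_pos (Nat.mul_pos hSpos hWpos))
        _ ≤ (b ^ c₃) ^ H * b := Nat.mul_le_mul_right _ (Nat.pow_le_pow_left h1 H)
        _ = b ^ k := by rw [← pow_mul, ← pow_succ, hk, mul_comm c₃ H]
    · have he0 : e = 0 := by omega
      have hH0 : H = 0 := by rw [hH, he0, Nat.zero_mul]
      rw [hk, hH0, pow_zero, Nat.one_mul, Nat.zero_mul, Nat.zero_add, pow_one]
      exact hb2
  have hB : 8 * ((k * (96 * p)) * 400 ^ e) ≤ n := by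
    have h1 : k ≤ (4 * e * c₃ + 1) * h := by
      calc k = 4 * e * c₃ * h + 1 := by rw [hk, hH]; ring
        _ ≤ 4 * e * c₃ * h + h := Nat.add_le_add_left hhpos _
        _ = (4 * e * c₃ + 1) * h := by ring
    calc 8 * ((k * (96 * p)) * 400 ^ e) ≤ 8 * ((((4 * e * c₃ + 1) * h) * (96 * p)) * 400 ^ e) :=
          Nat.mul_le_mul_left _ (Nat.mul_le_mul_right _ (Nat.mul_le_mul_right _ h1))
      _ = h * z4 := by rw [hz4]; ring
      _ ≤ h * b := Nat.mul_le_mul_left _ hb6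
      _ = n := hnh.symm
  have hτβ : ∀ t < e, (16 + 32 * (2 * b ^ 2 * m₀)) * β * (22 * β) ^ t ≤ n := by
    intro t ht
    have h1 : 16 + 32 * (2 * b ^ 2 * m₀) ≤ 80 * m₀ * b ^ 2 := by
      have h2 : 1 ≤ m₀ * b ^ 2 := Nat.mul_pos hm₀pos (Nat.pow_pos hbpos)
      calc 16 + 32 * (2 * b ^ 2 * m₀) ≤ 16 * (m₀ * b ^ 2) + 32 * (2 * b ^ 2 * m₀) :=
            Nat.add_le_add_right (by omega) _
        _ = 80 * m₀ * b ^ 2 := by ring
    have h2 : (22 * β) ^ t = 22 ^ t * b ^ (x * t) := by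
      rw [mul_pow, hβ, ← pow_mul]
    have h3 : 1 + (2 + (x + x * t)) ≤ κ := by
      have h4 : x * (t + 1) ≤ x * e := Nat.mul_le_mul_left _ ht
      have h5 : x * e = e * x := mul_comm _ _
      have h6 : x * (t + 1) = x + x * t := by ring
      omega
    calc (16 + 32 * (2 * b ^ 2 * m₀)) * β * (22 * β) ^ t
        ≤ (80 * m₀ * b ^ 2) * β * (22 ^ t * b ^ (x * t)) := by
          rw [h2]; exact Nat.mul_le_mul_right _ (Nat.mul_le_mul_right _ h1)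
      _ ≤ (80 * m₀ * b ^ 2) * β * (22 ^ e * b ^ (x * t)) :=
          Nat.mul_le_mul_left _ (Nat.mul_le_mul_right _
            (Nat.pow_le_pow_right (by norm_num) ht.le))
      _ = z3 * (b ^ 2 * (b ^ x * b ^ (x * t))) := by rw [hβ, hz3]; ring
      _ ≤ b * (b ^ 2 * (b ^ x * b ^ (x * t))) := Nat.mul_le_mul_right _ hb5
      _ = b ^ (1 + (2 + (x + x * t))) := by
          rw [pow_add b 1, pow_add b 2, pow_add b x, pow_one]
      _ ≤ b ^ κ := Nat.pow_le_pow_right hbpos h3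
      _ = n := hn.symm
  -- density
  obtain ⟨ω, hω⟩ : ∃ ω, ω = b / a := ⟨_, rfl⟩
  have hω1 : 4 * (q - 1) ^ 2 + 40 ≤ ω := by
    rw [hω, Nat.le_div_iff_mul_le hapos, mul_comm, ← hz2]
    exact hb4
  have hωpos : 0 < ω := by omega
  have hωS : S * ω * (2 * (22 * β) ^ e) ≤ n ^ 2 := by
    have h1 : a * ω ≤ b := hω ▸ Nat.mul_div_le _ _
    have h2 : (22 * β) ^ e = 22 ^ e * b ^ (x * e) := by
      rw [mul_pow, hβ, ← pow_mul]
    have h3 : κ - 1 + x + x * e + 1 = κ * 2 := by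
      have h5 : x * e = e * x := mul_comm _ _
      omega
    calc S * ω * (2 * (22 * β) ^ e) = (S * b ^ (x * e)) * (a * ω) := by
          rw [h2, ha]; ring
      _ ≤ (S * b ^ (x * e)) * b := Nat.mul_le_mul_left _ h1
      _ = b ^ (κ - 1 + x + x * e + 1) := by
          rw [hS, ← pow_add, ← pow_add, ← pow_succ]
      _ = n ^ 2 := by rw [hn, ← pow_mul, h3]
  have hnum : (80 * (2 * (12 * p) * m₀ + (12 * p) ^ 2 + 1)) ^ (12 * p) * (216 * S ^ 3) <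
      ω ^ p := by
    rw [← hC₂]
    have h1 : b ≤ 2 * a * ω := by
      have h2 := Nat.lt_div_mul_add (a := b) hapos
      rw [← hω] at h2
      have h3 : a ≤ ω * a := Nat.le_mul_of_pos_left _ hωpos
      calc b ≤ ω * a + a := h2.le
        _ ≤ ω * a + ω * a := Nat.add_le_add_left h3 _
        _ = 2 * a * ω := by ring
    have h2 : S ^ 3 ≤ b ^ (6 * κ) := by
      calc S ^ 3 ≤ (b ^ (2 * κ)) ^ 3 := Nat.pow_le_pow_left hS2 3
        _ = b ^ (6 * κ) := by rw [← pow_mul]; congr 1; ring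
    obtain ⟨u1, hu1⟩ : ∃ u, u = (80 * C₂) ^ (12 * p) := ⟨_, rfl⟩
    obtain ⟨u2, hu2⟩ : ∃ u, u = (2 * a) ^ p := ⟨_, rfl⟩
    rw [← hu1]
    rw [← hu1, ← hu2] at hz1
    have h3 : (u1 * (216 * S ^ 3)) * u2 < ω ^ p * u2 := by
      calc (u1 * (216 * S ^ 3)) * u2
          ≤ (u1 * (216 * b ^ (6 * κ))) * u2 :=
            Nat.mul_le_mul_right _ (Nat.mul_le_mul_left _ (Nat.mul_le_mul_left _ h2))
        _ = z1 * b ^ (6 * κ) := by rw [hz1]; ring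
        _ < b * b ^ (6 * κ) := Nat.mul_lt_mul_of_pos_right hb3 (Nat.pow_pos hbpos)
        _ = b ^ p := by rw [hp, pow_succ, mul_comm]
        _ ≤ (2 * a * ω) ^ p := Nat.pow_le_pow_left h1 p
        _ = ω ^ p * u2 := by rw [mul_pow, mul_comm, hu2]
    exact Nat.lt_of_mul_lt_mul_right h3
  have hNd : b * ((2 * n * (5 * S)) * (n ^ m₀ * rv ^ m₀)) ≤ U ^ m₀ := by
    have h1 : n * rv * b ≤ U := by
      calc n * rv * b = rv * b ^ (κ + 1) := by rw [hn, pow_succ]; ring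
        _ ≤ U := hrv1
    have h2 : b * (2 * n * (5 * S)) ≤ b ^ m₀ := by
      calc b * (2 * n * (5 * S)) = 10 * (b * (n * S)) := by ring
        _ ≤ b * (b * (n * b ^ (2 * κ))) :=
          Nat.mul_le_mul (by omega) (Nat.mul_le_mul_left _ (Nat.mul_le_mul_left _ hS2))
        _ = b ^ m₀ := by
          rw [hn, ← pow_add, ← pow_succ', ← pow_succ', hm₀]; congr 1; ring
    calc b * ((2 * n * (5 * S)) * (n ^ m₀ * rv ^ m₀))
        = (b * (2 * n * (5 * S))) * (n * rv) ^ m₀ := by rw [mul_pow]; ring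
      _ ≤ b ^ m₀ * (n * rv) ^ m₀ := Nat.mul_le_mul_right _ h2
      _ = (n * rv * b) ^ m₀ := by rw [← mul_pow, mul_comm b]
      _ ≤ U ^ m₀ := Nat.pow_le_pow_left h1 m₀
  have hv1 : 2 * q ≤ 96 * p := by omega
  have hv2 : 2 * m₀ ≤ 96 * p := by omega
  have hv3 : 24 * p ≤ 96 * p := by omega
  have hτ0 : 0 < 2 * b ^ 2 * m₀ :=
    Nat.mul_pos (Nat.mul_pos (by norm_num) (Nat.pow_pos hbpos)) hm₀pos
  exact coreH P e hP K q p m₀ rv κh (4 * h) h β (2 * b ^ 2 * m₀) b k (96 * p) ω H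
    hUpos hKpos hWpos hSpos hnpos hppos hSh hβpos hhpos (by omega) hH.ge
    hv1 hv2 hv3 hrvpos hblocks hHs hτ0 hτ hB hτβ hωS
    (by omega) (by omega) hnum hNb hNF hNd hunion

end Pool.H54.TSG
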